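import Pool.Agent.T2H95.KF.Defs

/-!
# Package CAS: the Casimir identity (finite sums + combinatorics, 45 min)

`v` antisymmetric (so `v x = 0` if `x` is not injective), killed by the raising operators. For particles
`r ≠ s` let `sA r s x` be `x` with the first components of `x r`, `x s` exchanged, `sB r s x` the same for the
second components. `sB r s x = (sA r s x) ∘ swap r s`, so `v (sA r s x) + v (sB r s x) = 0`.
(1) Let `a < (x r).1 =: b`. `hA a b` at the configuration `update x r (a, (x r).2)` reads (term of the particle `r`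
is `v x`): `v x + ∑_{s ≠ r, (x s).1 = a} v (sA r s x) = 0`. Sum over `a < (x r).1` and then over `r`:
`∑_{(r,s) : (x s).1 < (x r).1} v (sA r s x) = - (∑_r (x r).1) v x`; the sum over `(x s).1 > (x r).1` is the same by
symmetry, and `sA r s x = x` if `(x r).1 = (x s).1`. Hence
`∑_{r ≠ s} v (sA r s x) = (#{(r,s) | (x r).1 = (x s).1} - ∑_r (2 (x r).1 + 1)) v x`  (pairs with `r = s` included in `#`).
(2) The same for the second components. Add: if `v x ≠ 0` then
`#{(r,s) | (x r).1 = (x s).1} + #{(r,s) | (x r).2 = (x s).2} = ∑_r (2 (x r).2 + 1) + ∑_r (2 (x r).1 + 1)`.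
(3) `x` is injective, so `#{(r,s) | (x r).1 = (x s).1} = ∑_r (1 + 2 #{s | (x s).1 = (x r).1, (x s).2 < (x r).2})
≤ ∑_r (1 + 2 (x r).2)`, with equality only if for every `r` all points to the left of `x r` in its row are occupied.
The same for the columns. So both are equalities: rows and columns are initial segments, `IsDown x`.
-/

set_option autoImplicit false

noncomputable section

open Matrix Finset

namespace T2H95.KF

namespace CasAux

/-- exchange of the first components of the particles `r`, `s` -/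
def sA {m n t : ℕ} (r s : Fin t) (x : Cg m n t) : Cg m n t :=
  Function.update (Function.update x r ((x s).1, (x r).2)) s ((x r).1, (x s).2)

lemma sA_self {m n t : ℕ} (r : Fin t) (x : Cg m n t) : sA r r x = x := by
  unfold sA
  simp

lemma sA_symm {m n t : ℕ} (r s : Fin t) (x : Cg m n t) : sA r s x = sA s r x := by
  by_cases h : r = s
  · subst h; rfl
  · unfold sA
    rw [Function.update_comm h]

lemma sA_eq {m n t : ℕ} (r s : Fin t) (x : Cg m n t) (h : (x r).1 = (x s).1) : sA r s x = x := by
  unfold sA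
  rw [← h]
  simp only [Prod.mk.eta, Function.update_eq_self]
  rw [h]
  simp

/-- step (1) for one particle -/
lemma step1 {m n t : ℕ} (v : Cg m n t → ℂ)
    (hA : ∀ a b : Fin m, a < b → ∀ x : Cg m n t,
      ∑ r, (if (x r).1 = a then v (Function.update x r (b, (x r).2)) else 0) = 0)
    (x : Cg m n t) (r : Fin t) :
    (((x r).1 : ℕ) : ℂ) * v x + ∑ s, (if (x s).1 < (x r).1 then v (sA r s x) else 0) = 0 := by
  have h1 : ∀ a : Fin m, a < (x r).1 →
      v x + ∑ s, (if (x s).1 = a then v (sA r s x) else 0) = 0 := by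
    intro a ha
    have h := hA a (x r).1 ha (Function.update x r (a, (x r).2))
    refine Eq.trans ?_ h
    rw [← Finset.add_sum_erase _ (fun s => if (x s).1 = a then v (sA r s x) else 0)
        (Finset.mem_univ r), if_neg (ne_of_gt ha), zero_add]
    refine Eq.trans ?_ (Finset.add_sum_erase univ (fun r_1 =>
      if (Function.update x r (a, (x r).2) r_1).1 = a then
        v (Function.update (Function.update x r (a, (x r).2)) r_1
          ((x r).1, (Function.update x r (a, (x r).2) r_1).2))
      else 0) (Finset.mem_univ r))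
    congr 1
    · simp
    · refine Finset.sum_congr rfl fun s hs => ?_
      have hsr : s ≠ r := (Finset.mem_erase.1 hs).1
      rw [Function.update_of_ne hsr]
      by_cases hsa : (x s).1 = a
      · rw [if_pos hsa, if_pos hsa]
        unfold sA
        rw [hsa]
      · rw [if_neg hsa, if_neg hsa]
  have h2 : ∑ a ∈ univ.filter (fun a : Fin m => a < (x r).1),
      (v x + ∑ s, (if (x s).1 = a then v (sA r s x) else 0)) = 0 :=
    Finset.sum_eq_zero fun a ha => h1 a (Finset.mem_filter.1 ha).2
  rw [Finset.sum_add_distrib, Finset.sum_const, Finset.sum_comm] at h2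
  have hc : (univ.filter (fun a : Fin m => a < (x r).1)).card = ((x r).1 : ℕ) := by
    have : univ.filter (fun a : Fin m => a < (x r).1) = Finset.Iio (x r).1 := by
      ext a; simp
    rw [this, Fin.card_Iio]
  rw [hc, nsmul_eq_mul] at h2
  refine Eq.trans ?_ h2
  congr 1
  refine Finset.sum_congr rfl fun s _ => ?_
  rw [Finset.sum_ite_eq]
  simp

/-- number of pairs with the same first component -/
def N1 {m n t : ℕ} (x : Cg m n t) : ℕ := ∑ r, (univ.filter fun s => (x s).1 = (x r).1).card

lemma step2 {m n t : ℕ} (v : Cg m n t → ℂ)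
    (hA : ∀ a b : Fin m, a < b → ∀ x : Cg m n t,
      ∑ r, (if (x r).1 = a then v (Function.update x r (b, (x r).2)) else 0) = 0)
    (x : Cg m n t) :
    ∑ r, ∑ s, v (sA r s x) = ((N1 x : ℂ) - 2 * ∑ r, (((x r).1 : ℕ) : ℂ)) * v x := by
  have h1 : ∑ r, ∑ s, (if (x s).1 < (x r).1 then v (sA r s x) else 0)
      = - (∑ r, (((x r).1 : ℕ) : ℂ)) * v x := by
    have : ∀ r, ∑ s, (if (x s).1 < (x r).1 then v (sA r s x) else 0)
        = - ((((x r).1 : ℕ) : ℂ) * v x) := fun r => by
      have := step1 v hA x r
      linear_combination this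
    rw [Finset.sum_congr rfl fun r _ => this r, Finset.sum_neg_distrib, ← Finset.sum_mul]
    ring
  have h2 : ∑ r, ∑ s, (if (x r).1 < (x s).1 then v (sA r s x) else 0)
      = - (∑ r, (((x r).1 : ℕ) : ℂ)) * v x := by
    rw [← h1, Finset.sum_comm]
    refine Finset.sum_congr rfl fun r _ => Finset.sum_congr rfl fun s _ => ?_
    rw [sA_symm s r]
  have h3 : ∑ r, ∑ s, (if (x s).1 = (x r).1 then v (sA r s x) else 0) = (N1 x : ℂ) * v x := by
    unfold N1
    push_cast
    rw [Finset.sum_mul]
    refine Finset.sum_congr rfl fun r _ => ?_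
    rw [← Finset.sum_filter, Finset.sum_congr rfl (g := fun _ => v x), Finset.sum_const,
      nsmul_eq_mul]
    intro s hs
    rw [sA_eq r s x (Finset.mem_filter.1 hs).2.symm]
  have h4 : ∀ r s, v (sA r s x) = (if (x s).1 < (x r).1 then v (sA r s x) else 0)
      + (if (x r).1 < (x s).1 then v (sA r s x) else 0)
      + (if (x s).1 = (x r).1 then v (sA r s x) else 0) := by
    intro r s
    rcases lt_trichotomy (x s).1 (x r).1 with h | h | h
    · rw [if_pos h, if_neg (not_lt_of_gt h), if_neg (ne_of_lt h)]; ring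
    · rw [if_neg (by rw [h]; exact lt_irrefl _), if_neg (by rw [h]; exact lt_irrefl _),
        if_pos h]; ring
    · rw [if_neg (not_lt_of_gt h), if_pos h, if_neg (ne_of_gt h)]; ring
  calc ∑ r, ∑ s, v (sA r s x) = ∑ r, ∑ s, ((if (x s).1 < (x r).1 then v (sA r s x) else 0)
      + (if (x r).1 < (x s).1 then v (sA r s x) else 0)
      + (if (x s).1 = (x r).1 then v (sA r s x) else 0)) :=
        Finset.sum_congr rfl fun r _ => Finset.sum_congr rfl fun s _ => h4 r s
    _ = _ := by
        simp only [Finset.sum_add_distrib]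
        rw [h1, h2, h3]
        ring

/-- exchange of the two factors -/
def fl {m n t : ℕ} (x : Cg m n t) : Cg n m t := fun r => (x r).swap

lemma fl_fl {m n t : ℕ} (x : Cg m n t) : fl (fl x) = x := by
  funext r
  simp [fl]

lemma fl_update {m n t : ℕ} (x : Cg m n t) (r : Fin t) (p : Fin m × Fin n) :
    fl (Function.update x r p) = Function.update (fl x) r p.swap := by
  funext s
  unfold fl
  by_cases h : s = r
  · subst h; simp
  · simp [Function.update_of_ne h]

lemma sB {m n t : ℕ} (x : Cg m n t) (r s : Fin t) (hrs : r ≠ s) :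
    fl (sA r s (fl x)) = (sA r s x) ∘ (Equiv.swap r s) := by
  funext q
  unfold fl sA
  by_cases h1 : q = s
  · subst h1
    simp [Function.update_of_ne hrs]
  · by_cases h2 : q = r
    · subst h2
      simp [Function.update_of_ne h1]
    · simp [Function.update_of_ne h1, Function.update_of_ne h2, Equiv.swap_apply_of_ne_of_ne h2 h1]

/-- the row count -/
lemma row {m n t : ℕ} (x : Cg m n t) (hinj : Function.Injective x) :
    N1 x = t + 2 * ∑ r, (univ.filter fun s => (x s).1 = (x r).1 ∧ (x s).2 < (x r).2).card := by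
  have h1 : ∀ r, (univ.filter fun s => (x s).1 = (x r).1).card
      = 1 + (univ.filter fun s => (x s).1 = (x r).1 ∧ (x s).2 < (x r).2).card
        + (univ.filter fun s => (x s).1 = (x r).1 ∧ (x r).2 < (x s).2).card := by
    intro r
    have e1 : (univ.filter fun s => (x s).1 = (x r).1)
        = ({r} ∪ (univ.filter fun s => (x s).1 = (x r).1 ∧ (x s).2 < (x r).2))
          ∪ (univ.filter fun s => (x s).1 = (x r).1 ∧ (x r).2 < (x s).2) := by
      ext s
      simp only [Finset.mem_filter, Finset.mem_univ, true_and, Finset.mem_union,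
        Finset.mem_singleton]
      constructor
      · intro h
        rcases lt_trichotomy (x s).2 (x r).2 with h2 | h2 | h2
        · exact Or.inl (Or.inr ⟨h, h2⟩)
        · exact Or.inl (Or.inl (hinj (Prod.ext h h2)))
        · exact Or.inr ⟨h, h2⟩
      · rintro ((h | h) | h)
        · rw [h]
        · exact h.1
        · exact h.1
    rw [e1, Finset.card_union_of_disjoint, Finset.card_union_of_disjoint,
      Finset.card_singleton]
    · rw [Finset.disjoint_left]
      intro s hs
      rw [Finset.mem_singleton] at hs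
      subst hs
      simp
    · rw [Finset.disjoint_left]
      intro s hs
      rw [Finset.mem_union, Finset.mem_singleton, Finset.mem_filter] at hs
      rw [Finset.mem_filter]
      rintro ⟨_, _, h⟩
      rcases hs with hs | ⟨_, _, hs⟩
      · subst hs; exact lt_irrefl _ h
      · exact lt_asymm hs h
  have h2 : ∑ r, (univ.filter fun s => (x s).1 = (x r).1 ∧ (x r).2 < (x s).2).card
      = ∑ r, (univ.filter fun s => (x s).1 = (x r).1 ∧ (x s).2 < (x r).2).card := by
    simp only [Finset.card_filter]
    rw [Finset.sum_comm]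
    refine Finset.sum_congr rfl fun r _ => Finset.sum_congr rfl fun s _ => ?_
    simp only [eq_comm (a := (x r).1)]
  unfold N1
  rw [Finset.sum_congr rfl fun r _ => h1 r, Finset.sum_add_distrib, Finset.sum_add_distrib, h2]
  simp
  ring

lemma cle {m n t : ℕ} (x : Cg m n t) (hinj : Function.Injective x) (r : Fin t) :
    (univ.filter fun s => (x s).1 = (x r).1 ∧ (x s).2 < (x r).2).card ≤ ((x r).2 : ℕ) := by
  rw [← Fin.card_Iio]
  refine Finset.card_le_card_of_injOn (fun s => (x s).2) ?_ ?_
  · intro s hs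
    have hs' := Finset.mem_filter.1 (Finset.mem_coe.1 hs)
    simpa using hs'.2.2
  · intro s hs s' hs' h
    have h1 := (Finset.mem_filter.1 (Finset.mem_coe.1 hs)).2.1
    have h2 := (Finset.mem_filter.1 (Finset.mem_coe.1 hs')).2.1
    exact hinj (Prod.ext (h1.trans h2.symm) h)

lemma ceq {m n t : ℕ} (x : Cg m n t) (hinj : Function.Injective x) (r : Fin t)
    (h : (univ.filter fun s => (x s).1 = (x r).1 ∧ (x s).2 < (x r).2).card = ((x r).2 : ℕ))
    (q : Fin n) (hq : q ≤ (x r).2) : ∃ s, x s = ((x r).1, q) := by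
  rcases eq_or_lt_of_le hq with hq | hq
  · exact ⟨r, by rw [hq]⟩
  · have himg : ((univ.filter fun s => (x s).1 = (x r).1 ∧ (x s).2 < (x r).2).image
        fun s => (x s).2) = Finset.Iio (x r).2 := by
      apply Finset.eq_of_subset_of_card_le
      · intro p hp
        obtain ⟨s, hs, rfl⟩ := Finset.mem_image.1 hp
        simpa using (Finset.mem_filter.1 hs).2.2
      · rw [Fin.card_Iio, Finset.card_image_of_injOn, h]
        intro s hs s' hs' h
        have h1 := (Finset.mem_filter.1 (Finset.mem_coe.1 hs)).2.1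
        have h2 := (Finset.mem_filter.1 (Finset.mem_coe.1 hs')).2.1
        exact hinj (Prod.ext (h1.trans h2.symm) h)
    have : q ∈ Finset.Iio (x r).2 := Finset.mem_Iio.2 hq
    rw [← himg] at this
    obtain ⟨s, hs, hsq⟩ := Finset.mem_image.1 this
    exact ⟨s, Prod.ext (Finset.mem_filter.1 hs).2.1 hsq⟩

end CasAux

open CasAux in
theorem cas {m n t : ℕ} (v : Cg m n t → ℂ)
    (halt : ∀ (σ : Equiv.Perm (Fin t)) (x : Cg m n t),
      v (x ∘ σ) = ((Equiv.Perm.sign σ : ℤ) : ℂ) * v x)
    (hA : ∀ a b : Fin m, a < b → ∀ x : Cg m n t,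
      ∑ r, (if (x r).1 = a then v (Function.update x r (b, (x r).2)) else 0) = 0)
    (hB : ∀ a b : Fin n, a < b → ∀ x : Cg m n t,
      ∑ r, (if (x r).2 = a then v (Function.update x r ((x r).1, b)) else 0) = 0)
    (x : Cg m n t) (hx : v x ≠ 0) : IsDown x := by
  -- injectivity
  have hinj : Function.Injective x := by
    intro r s hrs
    by_contra hne
    have h := halt (Equiv.swap r s) x
    have h2 : x ∘ (Equiv.swap r s) = x := by
      funext q
      by_cases h1 : q = r
      · subst h1; simp [hrs]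
      · by_cases h2 : q = s
        · subst h2; simp [hrs]
        · simp [Equiv.swap_apply_of_ne_of_ne h1 h2]
    rw [h2, Equiv.Perm.sign_swap hne] at h
    have h3 : v x = 0 := by
      have : v x = - v x := by simpa using h
      linear_combination this / 2
    exact hx h3
  have hinj' : Function.Injective (fl x) := by
    intro r s h
    exact hinj (Prod.swap_injective h)
  have e1 := step2 v hA x
  have e2 := step2 (fun y : Cg n m t => v (fl y)) (by
    intro a b hab y
    refine Eq.trans ?_ (hB a b hab (fl y))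
    refine Finset.sum_congr rfl fun r _ => ?_
    rw [fl_update]
    rfl) (fl x)
  simp only [fl_fl] at e2
  have e3 : ∑ r, ∑ s, v (sA r s x) + ∑ r, ∑ s, v (fl (sA r s (fl x))) = 2 * (t : ℂ) * v x := by
    rw [← Finset.sum_add_distrib]
    have : ∀ r : Fin t, (∑ s, v (sA r s x) + ∑ s, v (fl (sA r s (fl x)))) = 2 * v x := by
      intro r
      rw [← Finset.sum_add_distrib, ← Finset.add_sum_erase _ _ (Finset.mem_univ r), sA_self,
        sA_self, fl_fl, Finset.sum_eq_zero]
      · ring
      · intro s hs
        have hsr : r ≠ s := (Finset.mem_erase.1 hs).1.symm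
        rw [sB x r s hsr, halt, Equiv.Perm.sign_swap hsr]
        simp
    rw [Finset.sum_congr rfl fun r _ => this r, Finset.sum_const]
    simp
    ring
  rw [e1, e2] at e3
  have e4 : ((N1 x : ℂ) + (N1 (fl x) : ℂ)) = 2 * t + 2 * ∑ r, (((x r).1 : ℕ) : ℂ)
      + 2 * ∑ r, (((fl x r).1 : ℕ) : ℂ) := by
    have := mul_right_cancel₀ hx (show ((N1 x : ℂ) - 2 * ∑ r, (((x r).1 : ℕ) : ℂ)
      + ((N1 (fl x) : ℂ) - 2 * ∑ r, (((fl x r).1 : ℕ) : ℂ))) * v x = (2 * (t : ℂ)) * v x by
        rw [add_mul]; exact e3)
    linear_combination this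
  have e5 : N1 x + N1 (fl x) = 2 * t + 2 * ∑ r, ((x r).1 : ℕ) + 2 * ∑ r, ((fl x r).1 : ℕ) := by
    exact_mod_cast e4
  rw [row x hinj, row (fl x) hinj'] at e5
  have hc := fun r => cle x hinj r
  have hc' := fun r => cle (fl x) hinj' r
  have s1 := Finset.sum_le_sum fun r (_ : r ∈ univ) => hc r
  have s2 := Finset.sum_le_sum fun r (_ : r ∈ univ) => hc' r
  have t1 : ∑ r, ((fl x r).1 : ℕ) = ∑ r, ((x r).2 : ℕ) := rfl
  have t2 : ∑ r, ((fl x r).2 : ℕ) = ∑ r, ((x r).1 : ℕ) := rfl
  rw [t1] at e5
  rw [t2] at s2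
  have q1 : ∑ r, (univ.filter fun s => (x s).1 = (x r).1 ∧ (x s).2 < (x r).2).card
      = ∑ r, ((x r).2 : ℕ) := by omega
  have q2 : ∑ r, (univ.filter fun s => (fl x s).1 = (fl x r).1 ∧ (fl x s).2 < (fl x r).2).card
      = ∑ r, ((fl x r).2 : ℕ) := by rw [t2]; omega
  have r1 := (Finset.sum_eq_sum_iff_of_le fun r (_ : r ∈ univ) => hc r).1 q1
  have r2 := (Finset.sum_eq_sum_iff_of_le fun r (_ : r ∈ univ) => hc' r).1 q2
  refine ⟨hinj, fun j p hp1 hp2 => ?_⟩
  obtain ⟨s, hs⟩ := ceq x hinj j (r1 j (Finset.mem_univ j)) p.2 hp2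
  obtain ⟨s', hs'⟩ := ceq (fl x) hinj' s (r2 s (Finset.mem_univ s)) p.1 (by
    change p.1 ≤ (x s).1
    rw [hs]
    exact hp1)
  refine ⟨s', ?_⟩
  have h1 : (x s').swap = ((x s).2, p.1) := hs'
  rw [hs] at h1
  have h2 := congrArg Prod.swap h1
  simpa using h2

end T2H95.KF
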