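import Pool.Agent.T2H95.KF.Defs

/-!
# Package DN: Slater determinants (35 min)

`T_sl`: multilinearity (`sl_eq` and `Finset.prod_univ_sum`). `Lk_inv`: on the generators
`X *ᵥ (us A' B' z j) = us (A * A') (B * B') z j` for `X = A ⊗ₖ B`. `sl_mem_Alt`: `Matrix.det_permute`.
`trunc_mem`: `sl (us 1 1 z) y = ∑_σ sign σ [z = y ∘ σ]`, so for antisymmetric `w` vanishing off the Young diagrams
with `cnt < s`: `t! • w = ∑_z w z • sl (us 1 1 z)`; apply it to `w x = if cnt k l x < s then v x else 0`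
(`cnt k l (x ∘ σ) = cnt k l x`).
-/

set_option autoImplicit false

noncomputable section

open Matrix Finset
open scoped Kronecker

namespace T2H95.KF

theorem T_sl {m n t : ℕ} (X : Mx m n) (u : Fin t → Fin m × Fin n → ℂ) :
    op (T t X) (sl u) = sl fun j => X *ᵥ u j := by
  ext x
  rw [op_apply, sl_eq]
  have h1 : ∀ σ : Equiv.Perm (Fin t), ∏ r, (X *ᵥ u r) (x (σ r)) =
      ∑ y : Cg m n t, (∏ r, X (x r) (y r)) * ∏ r, u r (y (σ r)) := by
    intro σ
    simp only [Matrix.mulVec, dotProduct]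
    rw [Finset.prod_univ_sum, Fintype.piFinset_univ,
      ← Equiv.sum_comp (σ.symm.arrowCongr (Equiv.refl (Fin m × Fin n)))]
    refine Finset.sum_congr rfl fun y _ => ?_
    rw [Finset.prod_mul_distrib]
    congr 1
    exact Equiv.prod_comp σ (fun r => X (x r) (y r))
  simp only [h1, sl_eq, Finset.mul_sum]
  rw [Finset.sum_comm]
  refine Finset.sum_congr rfl fun σ _ => Finset.sum_congr rfl fun y _ => ?_
  unfold T
  rw [Matrix.of_apply]
  ring

theorem sl_mem_Alt {m n t : ℕ} (u : Fin t → Fin m × Fin n → ℂ) : sl u ∈ Alt m n t := by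
  rw [mem_Alt]
  intro σ x
  rw [sl_apply, sl_apply]
  have h := Matrix.det_permute σ (Matrix.of fun r j => u j (x r))
  rw [← h]
  rfl

theorem Lk_inv {m n t : ℕ} (A : Matrix (Fin m) (Fin m) ℂ) (B : Matrix (Fin n) (Fin n) ℂ)
    (k l s : ℕ) (ψ : HV m n t) (hψ : ψ ∈ Lk m n t k l s) :
    op (T t (A ⊗ₖ B)) ψ ∈ Lk m n t k l s := by
  have h : Lk m n t k l s ≤ (Lk m n t k l s).comap (op (T t (A ⊗ₖ B))) := by
    rw [Lk, Submodule.span_le]
    rintro _ ⟨A', B', z, hz, hc, rfl⟩
    change op (T t (A ⊗ₖ B)) (sl (us A' B' z)) ∈ Submodule.span ℂ _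
    rw [T_sl]
    refine Submodule.subset_span ⟨A * A', B * B', z, hz, hc, ?_⟩
    congr 1
    funext j p
    simp only [Matrix.mulVec, dotProduct, us, Matrix.kroneckerMap_apply, Matrix.mul_apply,
      Fintype.sum_prod_type, Finset.sum_mul_sum]
    refine Finset.sum_congr rfl fun a _ => Finset.sum_congr rfl fun b _ => ?_
    ring
  exact h hψ

namespace PkgDN

lemma cnt_perm {m n t : ℕ} (k l : ℕ) (x : Cg m n t) (σ : Equiv.Perm (Fin t)) :
    cnt k l (x ∘ σ) = cnt k l x := by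
  unfold cnt
  refine Finset.card_bij (fun r _ => σ r) (fun r hr => ?_) (fun r _ r' _ h => σ.injective h)
    (fun r hr => ⟨σ.symm r, ?_, by simp⟩)
  · simpa using hr
  · simpa using hr

lemma sl_us_one {m n t : ℕ} (z y : Cg m n t) :
    sl (us (1 : Matrix (Fin m) (Fin m) ℂ) (1 : Matrix (Fin n) (Fin n) ℂ) z) y =
      ∑ σ : Equiv.Perm (Fin t), ((Equiv.Perm.sign σ : ℤ) : ℂ) * if y ∘ σ = z then 1 else 0 := by
  rw [sl_eq]
  refine Finset.sum_congr rfl fun σ _ => ?_
  congr 1
  have h1 : ∀ r, us (1 : Matrix (Fin m) (Fin m) ℂ) (1 : Matrix (Fin n) (Fin n) ℂ) z r (y (σ r)) =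
      if y (σ r) = z r then 1 else 0 := by
    intro r
    unfold us
    rw [Matrix.one_apply, Matrix.one_apply]
    by_cases h : y (σ r) = z r
    · rw [h]; simp
    · rw [if_neg h]
      by_cases h2 : (y (σ r)).1 = (z r).1
      · rw [if_pos h2, if_neg (fun h3 => h (Prod.ext h2 h3)), mul_zero]
      · rw [if_neg h2, zero_mul]
  simp only [h1]
  by_cases h : y ∘ σ = z
  · rw [if_pos h]
    refine Finset.prod_eq_one fun r _ => if_pos ?_
    exact congrFun h r
  · rw [if_neg h]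
    obtain ⟨r, hr⟩ := Function.ne_iff.1 h
    exact Finset.prod_eq_zero (Finset.mem_univ r) (if_neg hr)

end PkgDN

open PkgDN in
theorem trunc_mem {m n t : ℕ} (v : HV m n t) (hv : v ∈ Alt m n t)
    (hd : ∀ x, v x ≠ 0 → IsDown x) (k l s : ℕ) :
    (WithLp.toLp 2 fun x => if cnt k l x < s then v x else 0) ∈ Lk m n t k l s := by
  set w : HV m n t := WithLp.toLp 2 fun x => if cnt k l x < s then v x else 0 with hw
  have hwx : ∀ x, w x = if cnt k l x < s then v x else 0 := fun x => rfl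
  have hwa : ∀ (σ : Equiv.Perm (Fin t)) (x : Cg m n t),
      w (x ∘ σ) = ((Equiv.Perm.sign σ : ℤ) : ℂ) * w x := by
    intro σ x
    rw [hwx, hwx, cnt_perm, (mem_Alt v).1 hv σ x]
    split_ifs
    · rfl
    · rw [mul_zero]
  have key : ((Nat.factorial t : ℕ) : ℂ) • w =
      ∑ z : Cg m n t, w z • sl (us (1 : Matrix (Fin m) (Fin m) ℂ) (1 : Matrix (Fin n) (Fin n) ℂ) z) := by
    ext y
    rw [PiLp.smul_apply, WithLp.ofLp_sum, Finset.sum_apply]
    have h1 : ∀ z : Cg m n t, (w z • sl (us (1 : Matrix (Fin m) (Fin m) ℂ)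
        (1 : Matrix (Fin n) (Fin n) ℂ) z)) y = ∑ σ : Equiv.Perm (Fin t),
          ((Equiv.Perm.sign σ : ℤ) : ℂ) * if y ∘ σ = z then w z else 0 := by
      intro z
      rw [PiLp.smul_apply, sl_us_one, smul_eq_mul, Finset.mul_sum]
      refine Finset.sum_congr rfl fun σ _ => ?_
      split_ifs <;> ring
    refine Eq.trans ?_ (Finset.sum_congr rfl fun z _ => (h1 z).symm)
    rw [Finset.sum_comm]
    have h2 : ∀ σ : Equiv.Perm (Fin t), (∑ z : Cg m n t,
        ((Equiv.Perm.sign σ : ℤ) : ℂ) * if y ∘ σ = z then w z else 0) = w y := by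
      intro σ
      rw [← Finset.mul_sum, Finset.sum_ite_eq, if_pos (Finset.mem_univ _), hwa, ← mul_assoc,
        ← Int.cast_mul, ← Units.val_mul, Int.units_mul_self, Units.val_one, Int.cast_one, one_mul]
    rw [Finset.sum_congr rfl fun σ _ => h2 σ, Finset.sum_const, Finset.card_univ,
      Fintype.card_perm, Fintype.card_fin, nsmul_eq_mul, smul_eq_mul]
  have hsum : ((Nat.factorial t : ℕ) : ℂ) • w ∈ Lk m n t k l s := by
    rw [key]
    refine Submodule.sum_mem _ fun z _ => ?_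
    by_cases hz : w z = 0
    · rw [hz, zero_smul]
      exact Submodule.zero_mem _
    · refine Submodule.smul_mem _ _ (Submodule.subset_span ⟨1, 1, z, ?_, ?_, rfl⟩)
      · refine hd z fun h => hz ?_
        rw [hwx, h]
        simp
      · by_contra h
        exact hz (by rw [hwx, if_neg h])
  have hne : ((Nat.factorial t : ℕ) : ℂ) ≠ 0 := by exact_mod_cast Nat.factorial_ne_zero t
  have h3 := Submodule.smul_mem _ (((Nat.factorial t : ℕ) : ℂ)⁻¹) hsum
  rwa [smul_smul, inv_mul_cancel₀ hne, one_smul] at h3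

end T2H95.KF
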