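import Mathlib

/-!
# The separable refinement of Ky Fan's majorization: definitions

`t` particles with the one-particle space `ℂ^m ⊗ ℂ^n` (functions on `Fin m × Fin n`). `HV m n t` is the
`t`-fold tensor power: complex functions of the configurations `x : Fin t → Fin m × Fin n`.
-/

set_option autoImplicit false

noncomputable section

open Matrix Finset
open scoped Kronecker

namespace T2H95.KF

/-- configurations of `t` particles -/
abbrev Cg (m n t : ℕ) := Fin t → Fin m × Fin n

/-- the `t`-fold tensor power of `ℂ^m ⊗ ℂ^n` -/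
abbrev HV (m n t : ℕ) := EuclideanSpace ℂ (Cg m n t)

/-- one-particle operators -/
abbrev Mx (m n : ℕ) := Matrix (Fin m × Fin n) (Fin m × Fin n) ℂ

section

variable {m n t : ℕ}

/-- tensor power of `X` -/
def T (t : ℕ) (X : Mx m n) : Matrix (Cg m n t) (Cg m n t) ℂ :=
  Matrix.of fun x y => ∏ r, X (x r) (y r)

/-- the sum over all particles `r` of `X` acting on the particle `r` -/
def D (t : ℕ) (X : Mx m n) : Matrix (Cg m n t) (Cg m n t) ℂ :=
  Matrix.of fun x y => ∑ r, X (x r) (y r) * (if Function.update x r (y r) = y then 1 else 0)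

/-- the operator on `HV` given by a matrix -/
def op (M : Matrix (Cg m n t) (Cg m n t) ℂ) : HV m n t →ₗ[ℂ] HV m n t := Matrix.toEuclideanLin M

/-- antisymmetric functions -/
def Alt (m n t : ℕ) : Submodule ℂ (HV m n t) where
  carrier := {ψ | ∀ (σ : Equiv.Perm (Fin t)) (x : Cg m n t),
    ψ (x ∘ σ) = ((Equiv.Perm.sign σ : ℤ) : ℂ) * ψ x}
  add_mem' := by
    intro a b ha hb σ x
    have h1 := ha σ x
    have h2 := hb σ x
    simp only [PiLp.add_apply, mul_add] at *
    rw [h1, h2]
  zero_mem' := by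
    intro σ x
    simp
  smul_mem' := by
    intro c a ha σ x
    have h1 := ha σ x
    simp only [PiLp.smul_apply, smul_eq_mul] at *
    rw [h1]
    ring

/-- Slater determinant -/
def sl (u : Fin t → Fin m × Fin n → ℂ) : HV m n t :=
  WithLp.toLp 2 fun x => Matrix.det (Matrix.of fun r j => u j (x r))

/-- the one-particle states `A e_a ⊗ B f_b`, `(a, b) = z j` -/
def us (A : Matrix (Fin m) (Fin m) ℂ) (B : Matrix (Fin n) (Fin n) ℂ) (z : Cg m n t) :
    Fin t → Fin m × Fin n → ℂ := fun j p => A p.1 (z j).1 * B p.2 (z j).2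

/-- number of particles in the rectangle `[0,k) × [0,l)` -/
def cnt (k l : ℕ) (x : Cg m n t) : ℕ :=
  (univ.filter fun r => ((x r).1 : ℕ) < k ∧ ((x r).2 : ℕ) < l).card

/-- the positions are distinct and form a Young diagram -/
def IsDown (z : Cg m n t) : Prop :=
  Function.Injective z ∧ ∀ j, ∀ p : Fin m × Fin n, p.1 ≤ (z j).1 → p.2 ≤ (z j).2 → ∃ j', z j' = p

/-- span of the transforms of the Slater determinants of the Young diagrams with less than `s`
particles in `[0,k) × [0,l)` -/
def Lk (m n t k l s : ℕ) : Submodule ℂ (HV m n t) :=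
  Submodule.span ℂ {ψ | ∃ (A : Matrix (Fin m) (Fin m) ℂ) (B : Matrix (Fin n) (Fin n) ℂ)
    (z : Cg m n t), IsDown z ∧ cnt k l z < s ∧ ψ = sl (us A B z)}

/-! ### basic facts -/

lemma op_apply (M : Matrix (Cg m n t) (Cg m n t) ℂ) (ψ : HV m n t) (x : Cg m n t) :
    op M ψ x = ∑ y, M x y * ψ y := by
  unfold op
  rw [Matrix.toLpLin_apply]
  rfl

lemma sl_apply (u : Fin t → Fin m × Fin n → ℂ) (x : Cg m n t) :
    sl u x = Matrix.det (Matrix.of fun r j => u j (x r)) := rfl

lemma sl_eq (u : Fin t → Fin m × Fin n → ℂ) (x : Cg m n t) :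
    sl u x = ∑ σ : Equiv.Perm (Fin t), ((Equiv.Perm.sign σ : ℤ) : ℂ) * ∏ r, u r (x (σ r)) := by
  rw [sl_apply, Matrix.det_apply']
  rfl

lemma mem_Alt (ψ : HV m n t) : ψ ∈ Alt m n t ↔ ∀ (σ : Equiv.Perm (Fin t)) (x : Cg m n t),
    ψ (x ∘ σ) = ((Equiv.Perm.sign σ : ℤ) : ℂ) * ψ x := Iff.rfl

/-- action of `D X` -/
lemma op_D (X : Mx m n) (ψ : HV m n t) (x : Cg m n t) :
    op (D t X) ψ x = ∑ r, ∑ p, X (x r) p * ψ (Function.update x r p) := by
  rw [op_apply]
  unfold D
  simp only [Matrix.of_apply, Finset.sum_mul]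
  rw [Finset.sum_comm]
  refine Finset.sum_congr rfl fun r _ => ?_
  rw [← Finset.sum_subset (Finset.subset_univ
    (Finset.univ.image fun p : Fin m × Fin n => Function.update x r p))]
  · rw [Finset.sum_image]
    · refine Finset.sum_congr rfl fun p _ => ?_
      simp
    · intro p _ q _ h
      have := congrFun h r
      simpa using this
  · intro y _ hy
    rw [if_neg, mul_zero, zero_mul]
    intro h
    exact hy (Finset.mem_image.2 ⟨y r, Finset.mem_univ _, h⟩)

lemma op_mul (M N : Matrix (Cg m n t) (Cg m n t) ℂ) (ψ : HV m n t) :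
    op (M * N) ψ = op M (op N ψ) := by
  ext x
  simp only [op_apply, Matrix.mul_apply, Finset.sum_mul, Finset.mul_sum]
  rw [Finset.sum_comm]
  refine Finset.sum_congr rfl fun y _ => Finset.sum_congr rfl fun z _ => ?_
  ring

lemma op_one (ψ : HV m n t) : op (1 : Matrix (Cg m n t) (Cg m n t) ℂ) ψ = ψ := by
  ext x
  rw [op_apply]
  simp [Matrix.one_apply]

/-- multiplicativity of the tensor power -/
lemma T_mul (X Y : Mx m n) : T t (X * Y) = T t X * T t Y := by
  ext x y
  unfold T
  simp only [Matrix.of_apply, Matrix.mul_apply]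
  rw [Finset.prod_univ_sum]
  simp only [Fintype.piFinset_univ]
  refine Finset.sum_congr rfl fun z _ => ?_
  rw [Finset.prod_mul_distrib]

lemma T_conjTranspose (X : Mx m n) : T t Xᴴ = (T t X)ᴴ := by
  ext x y
  unfold T
  simp [Matrix.conjTranspose_apply]

lemma T_one : T t (1 : Mx m n) = 1 := by
  ext x y
  unfold T
  simp only [Matrix.of_apply, Matrix.one_apply]
  by_cases h : x = y
  · subst h; simp
  · rw [if_neg h]
    obtain ⟨r, hr⟩ := Function.ne_iff.1 h
    exact Finset.prod_eq_zero (Finset.mem_univ r) (if_neg hr)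

/-- adjoint -/
lemma op_adj (M : Matrix (Cg m n t) (Cg m n t) ℂ) (φ ψ : HV m n t) :
    inner ℂ (op M φ) ψ = inner ℂ φ (op Mᴴ ψ) := by
  unfold op
  rw [Matrix.toEuclideanLin_conjTranspose_eq_adjoint, LinearMap.adjoint_inner_right]

end

end T2H95.KF
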