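import Pool.Agent.T2H95.KF.Defs

/-!
# Package EIG: sums of eigenvalues (40 min)

`eig`: let `u j` be orthonormal eigenvectors of `M` for the eigenvalues `eigenvalues₀ j`, `j < t`
(`hM.eigenvectorBasis`, `eigenvalues` is `eigenvalues₀` composed with an equivalence), `ψ = sl u`. By `sl_eq`, `op_D`:
`D M` acts on every product `∏ r, u r (x (σ r))` as `∑ j, λ j`. `ψ ≠ 0`: `∑_x (∏ r, star (u r (x r))) * ψ x
= ∑_σ sign σ ∏ r ⟨u_{σ⁻¹ r}, u_r⟩ = 1` (`Finset.prod_univ_sum`). Antisymmetry: `Matrix.det_permute`.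
`kyf`: the `t` largest of the values of `d` have the sum `∑ j < t, eigenvalues₀ j` (the multiset of all `eigenvalues₀` is
the multiset of all values of `d`: `roots_charpoly_eq_eigenvalues₀`, `Matrix.charpoly_diagonal`; so
`d = eigenvalues₀ ∘ e` for a bijection `e`); `eigenvalues₀` is antitone, and the sum of an antitone sequence over a set of
`t` indices is at most the sum over the first `t` indices.
-/

set_option autoImplicit false

noncomputable section

open Matrix Finset
open scoped Kronecker

namespace T2H95.KF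

lemma sl_alt {m n t : ℕ} (u : Fin t → Fin m × Fin n → ℂ) : sl u ∈ Alt m n t := by
  rw [mem_Alt]
  intro σ x
  rw [sl_apply, sl_apply]
  have := Matrix.det_permute σ (Matrix.of fun r j => u j (x r))
  rw [← this]
  rfl

/-- the action on a product -/
lemma D_prod {m n t : ℕ} (M : Mx m n) (u : Fin t → Fin m × Fin n → ℂ) (lam : Fin t → ℂ)
    (hu : ∀ j q, ∑ p, M q p * u j p = lam j * u j q) (σ : Equiv.Perm (Fin t)) (x : Cg m n t) :
    ∑ r, ∑ p, M (x r) p * ∏ s, u s (Function.update x r p (σ s)) =
      (∑ j, lam j) * ∏ s, u s (x (σ s)) := by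
  rw [← Equiv.sum_comp σ, Finset.sum_mul]
  refine Finset.sum_congr rfl fun s₀ _ => ?_
  have h1 : ∀ p, ∏ s, u s (Function.update x (σ s₀) p (σ s)) =
      u s₀ p * ∏ s ∈ univ \ {s₀}, u s (x (σ s)) := by
    intro p
    have h2 : (fun s => u s (Function.update x (σ s₀) p (σ s))) =
        Function.update (fun s => u s (x (σ s))) s₀ (u s₀ p) := by
      funext s
      by_cases hs : s = s₀
      · subst hs
        simp
      · rw [Function.update_of_ne hs, Function.update_of_ne]
        exact fun h => hs (σ.injective h)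
    rw [h2, Finset.prod_update_of_mem (Finset.mem_univ _)]
  have h3 : ∏ s, u s (x (σ s)) = u s₀ (x (σ s₀)) * ∏ s ∈ univ \ {s₀}, u s (x (σ s)) := by
    have := h1 (x (σ s₀))
    rwa [Function.update_eq_self] at this
  rw [h3]
  simp only [h1]
  rw [← mul_assoc, ← hu, Finset.sum_mul]
  refine Finset.sum_congr rfl fun p _ => ?_
  ring

lemma D_sl {m n t : ℕ} (M : Mx m n) (u : Fin t → Fin m × Fin n → ℂ) (lam : Fin t → ℂ)
    (hu : ∀ j q, ∑ p, M q p * u j p = lam j * u j q) :
    op (D t M) (sl u) = (∑ j, lam j) • sl u := by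
  ext x
  rw [op_D]
  simp only [PiLp.smul_apply, smul_eq_mul]
  rw [sl_eq, Finset.mul_sum]
  have h1 : ∀ r p, M (x r) p * sl u (Function.update x r p) =
      ∑ σ : Equiv.Perm (Fin t), ((Equiv.Perm.sign σ : ℤ) : ℂ) *
        (M (x r) p * ∏ s, u s (Function.update x r p (σ s))) := by
    intro r p
    rw [sl_eq, Finset.mul_sum]
    refine Finset.sum_congr rfl fun σ _ => ?_
    ring
  simp only [h1]
  have h2 : ∀ r, ∑ p, ∑ σ : Equiv.Perm (Fin t), ((Equiv.Perm.sign σ : ℤ) : ℂ) *
        (M (x r) p * ∏ s, u s (Function.update x r p (σ s))) =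
      ∑ σ : Equiv.Perm (Fin t), ((Equiv.Perm.sign σ : ℤ) : ℂ) *
        ∑ p, (M (x r) p * ∏ s, u s (Function.update x r p (σ s))) := by
    intro r
    rw [Finset.sum_comm]
    refine Finset.sum_congr rfl fun σ _ => ?_
    rw [Finset.mul_sum]
  simp only [h2]
  rw [Finset.sum_comm]
  refine Finset.sum_congr rfl fun σ _ => ?_
  rw [← Finset.mul_sum, D_prod M u lam hu σ x]
  ring

lemma sl_ne_zero {m n t : ℕ} (u : Fin t → Fin m × Fin n → ℂ)
    (ho : ∀ i j, ∑ p, star (u i p) * u j p = if i = j then 1 else 0) : sl u ≠ 0 := by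
  intro h0
  have h1 : ∑ x : Cg m n t, (∏ r, star (u r (x r))) * sl u x = 0 := by
    rw [h0]
    simp
  have h2 : ∑ x : Cg m n t, (∏ r, star (u r (x r))) * sl u x =
      ∑ σ : Equiv.Perm (Fin t), ((Equiv.Perm.sign σ : ℤ) : ℂ) *
        ∏ s, ∑ p, star (u s p) * u (σ.symm s) p := by
    have h3 : ∀ x : Cg m n t, (∏ r, star (u r (x r))) * sl u x =
        ∑ σ : Equiv.Perm (Fin t), ((Equiv.Perm.sign σ : ℤ) : ℂ) *
          ∏ s, (star (u s (x s)) * u (σ.symm s) (x s)) := by
      intro x
      rw [sl_eq, Finset.mul_sum]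
      refine Finset.sum_congr rfl fun σ _ => ?_
      have h4 : ∏ r, u r (x (σ r)) = ∏ s, u (σ.symm s) (x s) := by
        rw [← Equiv.prod_comp σ (fun s => u (σ.symm s) (x s))]
        refine Finset.prod_congr rfl fun r _ => ?_
        rw [Equiv.symm_apply_apply]
      rw [h4, Finset.prod_mul_distrib]
      ring
    simp only [h3]
    rw [Finset.sum_comm]
    refine Finset.sum_congr rfl fun σ _ => ?_
    rw [← Finset.mul_sum, Finset.prod_univ_sum]
    simp only [Fintype.piFinset_univ]
  rw [h2] at h1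
  have h5 : ∑ σ : Equiv.Perm (Fin t), ((Equiv.Perm.sign σ : ℤ) : ℂ) *
        ∏ s, ∑ p, star (u s p) * u (σ.symm s) p = 1 := by
    rw [Finset.sum_eq_single 1]
    · simp only [Equiv.Perm.sign_one, Units.val_one, Int.cast_one, one_mul]
      refine Finset.prod_eq_one fun s _ => ?_
      have : (1 : Equiv.Perm (Fin t)).symm s = s := rfl
      rw [this, ho, if_pos rfl]
    · intro σ _ hσ
      obtain ⟨s, hs⟩ : ∃ s, s ≠ σ.symm s := by
        by_contra hcon
        push Not at hcon
        apply hσ
        ext s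
        have h6 := hcon (σ s)
        rw [Equiv.symm_apply_apply] at h6
        rw [h6]
        rfl
      rw [Finset.prod_eq_zero (Finset.mem_univ s), mul_zero]
      rw [ho, if_neg hs]
    · intro h
      exact absurd (Finset.mem_univ _) h
  rw [h5] at h1
  exact one_ne_zero h1

theorem eig {m n t : ℕ} (M : Mx m n) (hM : M.IsHermitian)
    (ht : t ≤ Fintype.card (Fin m × Fin n)) :
    ∃ ψ ∈ Alt m n t, ψ ≠ 0 ∧
      op (D t M) ψ = ((∑ j : Fin t, hM.eigenvalues₀ (Fin.castLE ht j) : ℝ) : ℂ) • ψ := by
  set e0 : Fin (Fintype.card (Fin m × Fin n)) ≃ (Fin m × Fin n) :=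
    Fintype.equivOfCardEq (Fintype.card_fin _) with he0
  set ix : Fin t → Fin m × Fin n := fun j => e0 (Fin.castLE ht j) with hix
  have hixi : Function.Injective ix := fun i j h =>
    Fin.castLE_injective ht (e0.injective h)
  have hev : ∀ j, hM.eigenvalues (ix j) = hM.eigenvalues₀ (Fin.castLE ht j) := by
    intro j
    unfold Matrix.IsHermitian.eigenvalues
    rw [hix, ← he0]
    simp only [Equiv.symm_apply_apply]
  set u : Fin t → Fin m × Fin n → ℂ := fun j => hM.eigenvectorBasis (ix j) with hu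
  have h1 : ∀ j q, ∑ p, M q p * u j p = ((hM.eigenvalues₀ (Fin.castLE ht j) : ℝ) : ℂ) * u j q := by
    intro j q
    have := congrFun (hM.mulVec_eigenvectorBasis (ix j)) q
    rw [hev j] at this
    simpa [Matrix.mulVec, dotProduct] using this
  have h2 : ∀ i j, ∑ p, star (u i p) * u j p = if i = j then 1 else 0 := by
    intro i j
    have := orthonormal_iff_ite.1 hM.eigenvectorBasis.orthonormal (ix i) (ix j)
    rw [PiLp.inner_apply] at this
    have h3 : (if ix i = ix j then (1 : ℂ) else 0) = if i = j then 1 else 0 := by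
      by_cases hij : i = j
      · rw [if_pos hij, if_pos (by rw [hij])]
      · rw [if_neg hij, if_neg fun h => hij (hixi h)]
    rw [← h3, ← this]
    refine Finset.sum_congr rfl fun p _ => ?_
    rw [RCLike.inner_apply, mul_comm]
    rfl
  refine ⟨sl u, sl_alt u, sl_ne_zero u h2, ?_⟩
  rw [D_sl M u _ h1]
  congr 1
  push_cast
  rfl

theorem kyf {m n t : ℕ} (d : Fin m × Fin n → ℝ)
    (hd : (Matrix.diagonal fun p => ((d p : ℝ) : ℂ)).IsHermitian)
    (ht : t ≤ Fintype.card (Fin m × Fin n)) (x : Cg m n t) (hx : Function.Injective x) :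
    ∑ r, d (x r) ≤ ∑ j : Fin t, hd.eigenvalues₀ (Fin.castLE ht j) := by
  rcases Nat.eq_zero_or_pos t with h0 | hpos
  · subst h0
    simp
  have hms : Multiset.map d univ.val = Multiset.map hd.eigenvalues₀ univ.val := by
    have h1 := hd.roots_charpoly_eq_eigenvalues₀
    rw [Matrix.charpoly_diagonal, Polynomial.roots_prod _ _ (by
      rw [Finset.prod_ne_zero_iff]
      intro i _
      exact Polynomial.X_sub_C_ne_zero _)] at h1
    simp only [Polynomial.roots_X_sub_C] at h1
    rw [Multiset.bind_singleton] at h1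
    have h2 := congrArg (Multiset.map Complex.re) h1
    rw [Multiset.map_map, Multiset.map_map] at h2
    simpa [Function.comp_def] using h2
  have hsum : ∀ F : ℝ → ℝ, ∑ p, F (d p) = ∑ j, F (hd.eigenvalues₀ j) := by
    intro F
    have h1 := congrArg (fun s => (Multiset.map F s).sum) hms
    simp only [Multiset.map_map] at h1
    exact h1
  set c : ℝ := hd.eigenvalues₀ (Fin.castLE ht ⟨t - 1, by omega⟩) with hc
  have hanti := hd.eigenvalues₀_antitone
  have h1 : ∑ r, d (x r) ≤ t * c + ∑ p, max (d p - c) 0 := by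
    have h2 : ∑ r, max (d (x r) - c) 0 ≤ ∑ p, max (d p - c) 0 := by
      rw [← Finset.sum_image (f := fun p => max (d p - c) 0) (s := univ) (g := x)
        (fun a _ b _ h => hx h)]
      exact Finset.sum_le_sum_of_subset_of_nonneg (Finset.subset_univ _)
        fun _ _ _ => le_max_right _ _
    calc ∑ r, d (x r) ≤ ∑ r : Fin t, (c + max (d (x r) - c) 0) := by
          refine Finset.sum_le_sum fun r _ => ?_
          have := le_max_left (d (x r) - c) 0
          linarith
      _ = t * c + ∑ r, max (d (x r) - c) 0 := by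
          rw [Finset.sum_add_distrib, Finset.sum_const, Finset.card_univ, Fintype.card_fin,
            nsmul_eq_mul]
      _ ≤ _ := by linarith
  refine h1.trans ?_
  rw [hsum fun y => max (y - c) 0]
  have h3 : ∑ j, max (hd.eigenvalues₀ j - c) 0 = ∑ j : Fin t,
      (hd.eigenvalues₀ (Fin.castLE ht j) - c) := by
    have h4 : ∑ j ∈ univ.image (Fin.castLE ht), max (hd.eigenvalues₀ j - c) 0 =
        ∑ j, max (hd.eigenvalues₀ j - c) 0 := by
      refine Finset.sum_subset (Finset.subset_univ _) fun j _ hj => ?_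
      have h5 : t ≤ (j : ℕ) := by
        by_contra hlt
        push Not at hlt
        apply hj
        rw [Finset.mem_image]
        exact ⟨⟨j, hlt⟩, Finset.mem_univ _, rfl⟩
      rw [max_eq_right]
      have : hd.eigenvalues₀ j ≤ c := hanti (by
        rw [Fin.le_def]
        show t - 1 ≤ (j : ℕ)
        omega)
      linarith
    rw [← h4, Finset.sum_image fun a _ b _ h => Fin.castLE_injective ht h]
    refine Finset.sum_congr rfl fun j _ => ?_
    rw [max_eq_left]
    have : c ≤ hd.eigenvalues₀ (Fin.castLE ht j) := hanti (by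
      rw [Fin.le_def]
      show (j : ℕ) ≤ t - 1
      have := j.2
      omega)
    linarith
  rw [h3, Finset.sum_sub_distrib, Finset.sum_const, Finset.card_univ, Fintype.card_fin,
    nsmul_eq_mul]
  linarith

end T2H95.KF
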