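import Pool.Agent.T2H95.KF.TOP

/-!
# The separable refinement of Ky Fan's majorization
-/

set_option autoImplicit false

noncomputable section

open Matrix Finset
open scoped Kronecker ComplexOrder

namespace T2H95.KF

/-- eigenvalues of a Hermitian matrix in non-increasing order, with multiplicity -/
def lam {ι : Type} [Fintype ι] [DecidableEq ι] (X : Matrix ι ι ℂ) : Fin (Fintype.card ι) → ℝ :=
  open Classical in if h : X.IsHermitian then h.eigenvalues₀ else 0

/-- the diagonal matrix of the eigenvalues in non-increasing order -/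
def dec {k : ℕ} (X : Matrix (Fin k) (Fin k) ℂ) : Matrix (Fin k) (Fin k) ℂ :=
  Matrix.diagonal fun i => ((lam X (Fin.cast (Fintype.card_fin k).symm i) : ℝ) : ℂ)

lemma lam_eq {ι : Type} [Fintype ι] [DecidableEq ι] (X : Matrix ι ι ℂ) (h : X.IsHermitian) :
    lam X = h.eigenvalues₀ := by
  unfold lam
  rw [dif_pos h]

lemma lam_antitone {ι : Type} [Fintype ι] [DecidableEq ι] (X : Matrix ι ι ℂ) :
    Antitone (lam X) := by
  by_cases h : X.IsHermitian
  · rw [lam_eq X h]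
    exact h.eigenvalues₀_antitone
  · unfold lam
    rw [dif_neg h]
    exact fun _ _ _ => le_refl _

lemma lam_nonneg {ι : Type} [Fintype ι] [DecidableEq ι] (X : Matrix ι ι ℂ) (h : X.PosSemidef)
    (j : Fin (Fintype.card ι)) : 0 ≤ lam X j := by
  rw [lam_eq X h.1]
  have h1 := h.eigenvalues_nonneg (Fintype.equivOfCardEq (Fintype.card_fin _) j)
  unfold Matrix.IsHermitian.eigenvalues at h1
  rwa [Equiv.symm_apply_apply] at h1

lemma sum_lam {ι : Type} [Fintype ι] [DecidableEq ι] (X : Matrix ι ι ℂ) (h : X.IsHermitian) :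
    ((∑ j, lam X j : ℝ) : ℂ) = X.trace := by
  rw [h.trace_eq_sum_eigenvalues, lam_eq X h]
  push_cast
  unfold Matrix.IsHermitian.eigenvalues
  exact (Equiv.sum_comp (Fintype.equivOfCardEq (Fintype.card_fin (Fintype.card ι))).symm
    fun j => ((h.eigenvalues₀ j : ℝ) : ℂ)).symm

lemma spec {k : ℕ} (A : Matrix (Fin k) (Fin k) ℂ) (hA : A.IsHermitian) :
    ∃ U : Matrix (Fin k) (Fin k) ℂ, U * Uᴴ = 1 ∧ A = U * dec A * Uᴴ := by
  set U₀ : Matrix (Fin k) (Fin k) ℂ := hA.eigenvectorUnitary.1 with hU₀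
  set e := Fintype.equivOfCardEq (Fintype.card_fin (Fintype.card (Fin k))) with he
  set π : Fin k ≃ Fin k := (finCongr (Fintype.card_fin k).symm).trans e with hπ
  have h0 : U₀ * U₀ᴴ = 1 := by
    have := Unitary.coe_mul_star_self hA.eigenvectorUnitary
    exact this
  have h1 : A = U₀ * Matrix.diagonal (fun i => ((hA.eigenvalues i : ℝ) : ℂ)) * U₀ᴴ := by
    have := hA.spectral_theorem
    rw [Unitary.conjStarAlgAut_apply] at this
    exact this
  refine ⟨U₀.submatrix id π, ?_, ?_⟩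
  · rw [Matrix.conjTranspose_submatrix, Matrix.submatrix_mul_equiv, h0]
    simp
  · have h2 : dec A = (Matrix.diagonal (fun i => ((hA.eigenvalues i : ℝ) : ℂ))).submatrix π π := by
      rw [Matrix.submatrix_diagonal_equiv]
      unfold dec
      congr 1
      funext i
      rw [lam_eq A hA, Function.comp_apply]
      unfold Matrix.IsHermitian.eigenvalues
      congr 2
      rw [hπ, Equiv.trans_apply, ← he, Equiv.symm_apply_apply]
      rfl
    rw [h2, Matrix.conjTranspose_submatrix, Matrix.submatrix_mul_equiv, Matrix.submatrix_mul_equiv]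
    conv_lhs => rw [h1]
    simp

lemma D_sum {κ : Type} [Fintype κ] {m n t : ℕ} (X : κ → Mx m n) :
    D t (∑ i, X i) = ∑ i, D t (X i) := by
  ext x y
  unfold D
  simp only [Matrix.of_apply, Matrix.sum_apply, Finset.sum_mul]
  rw [Finset.sum_comm]

lemma op_sum {κ : Type} [Fintype κ] {m n t : ℕ} (F : κ → Matrix (Cg m n t) (Cg m n t) ℂ)
    (ψ : HV m n t) : op (∑ i, F i) ψ = ∑ i, op (F i) ψ := by
  unfold op
  rw [map_sum, LinearMap.sum_apply]

lemma dec_herm {k : ℕ} (X : Matrix (Fin k) (Fin k) ℂ) : (dec X).IsHermitian := by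
  unfold dec
  rw [Matrix.IsHermitian, Matrix.diagonal_conjTranspose]
  congr 1
  funext i
  simp

theorem main_le {κ : Type} [Fintype κ] {m n : ℕ} (A : κ → Matrix (Fin m) (Fin m) ℂ)
    (B : κ → Matrix (Fin n) (Fin n) ℂ) (hA : ∀ i, (A i).PosSemidef) (hB : ∀ i, (B i).PosSemidef)
    (hM : (∑ i, A i ⊗ₖ B i).IsHermitian) (hM' : (∑ i, dec (A i) ⊗ₖ dec (B i)).IsHermitian)
    (t : ℕ) (ht : t ≤ Fintype.card (Fin m × Fin n)) :
    ∑ j : Fin t, lam (∑ i, A i ⊗ₖ B i) (Fin.castLE ht j) ≤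
      ∑ j : Fin t, lam (∑ i, dec (A i) ⊗ₖ dec (B i)) (Fin.castLE ht j) := by
  set α : κ → Fin m → ℝ := fun i k => lam (A i) (Fin.cast (Fintype.card_fin m).symm k) with hα
  set β : κ → Fin n → ℝ := fun i k => lam (B i) (Fin.cast (Fintype.card_fin n).symm k) with hβ
  have hαa : ∀ i, Antitone (α i) := fun i a b hab => lam_antitone (A i) (by simpa using hab)
  have hβa : ∀ i, Antitone (β i) := fun i a b hab => lam_antitone (B i) (by simpa using hab)
  have hα0 : ∀ i k, 0 ≤ α i k := fun i k => lam_nonneg _ (hA i) _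
  have hβ0 : ∀ i k, 0 ≤ β i k := fun i k => lam_nonneg _ (hB i) _
  set w : Fin m → Fin n → ℝ := fun k l => ∑ i, df (α i) k * df (β i) l with hw
  have hw0 : ∀ k l, 0 ≤ w k l := fun k l => Finset.sum_nonneg fun i _ =>
    mul_nonneg (df_nonneg (hαa i) (hα0 i) k) (df_nonneg (hβa i) (hβ0 i) l)
  set d : Fin m × Fin n → ℝ := fun p => ∑ i, α i p.1 * β i p.2 with hd
  have hdiag : (∑ i, dec (A i) ⊗ₖ dec (B i)) = Matrix.diagonal fun p => ((d p : ℝ) : ℂ) := by
    have h1 : ∀ i, dec (A i) ⊗ₖ dec (B i) =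
        Matrix.diagonal fun p : Fin m × Fin n => ((α i p.1 * β i p.2 : ℝ) : ℂ) := by
      intro i
      unfold dec
      rw [Matrix.diagonal_kronecker_diagonal]
      simp only [hα, hβ, Complex.ofReal_mul]
    simp only [h1]
    ext p q
    rw [Matrix.sum_apply]
    by_cases hpq : p = q
    · subst hpq
      simp only [Matrix.diagonal_apply_eq, hd]
      push_cast
      rfl
    · simp only [Matrix.diagonal_apply_ne _ hpq, Finset.sum_const_zero]
  have hM'' : (Matrix.diagonal fun p => ((d p : ℝ) : ℂ)).IsHermitian := by rw [← hdiag]; exact hM'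
  have hR : lam (∑ i, dec (A i) ⊗ₖ dec (B i)) = hM''.eigenvalues₀ := by
    rw [← lam_eq _ hM'', hdiag]
  set Λ : ℝ := ∑ j : Fin t, lam (∑ i, dec (A i) ⊗ₖ dec (B i)) (Fin.castLE ht j) with hΛd
  have hΛ : ∀ x : Cg m n t, Function.Injective x →
      ∑ k, ∑ l, w k l * (cnt ((k : ℕ) + 1) ((l : ℕ) + 1) x : ℝ) ≤ Λ := by
    intro x hx
    have h1 : ∑ k, ∑ l, w k l * (cnt ((k : ℕ) + 1) ((l : ℕ) + 1) x : ℝ) = ∑ r, d (x r) := by
      simp only [hw, hd, Finset.sum_mul]
      rw [Finset.sum_comm (s := (univ : Finset (Fin t)))]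
      simp only [layer3]
      have h2 : ∀ k : Fin m, ∑ l : Fin n, ∑ i, df (α i) k * df (β i) l *
          (cnt ((k : ℕ) + 1) ((l : ℕ) + 1) x : ℝ) = ∑ i, ∑ l : Fin n, df (α i) k * df (β i) l *
          (cnt ((k : ℕ) + 1) ((l : ℕ) + 1) x : ℝ) := fun k => Finset.sum_comm
      simp only [h2]
      exact Finset.sum_comm
    rw [h1, hΛd, hR]
    exact kyf d hM'' ht x hx
  obtain ⟨ψ, hψ, hψ0, hev⟩ := eig (t := t) _ hM ht
  have hn : 0 < ‖ψ‖ ^ 2 := by
    have := norm_pos_iff.2 hψ0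
    positivity
  refine le_of_mul_le_mul_right ?_ hn
  refine le_trans ?_ (top_bound w hw0 Λ hΛ ψ hψ hψ0)
  set S : ℝ := ∑ j : Fin t, lam (∑ i, A i ⊗ₖ B i) (Fin.castLE ht j) with hSd
  have hS : (∑ j : Fin t, hM.eigenvalues₀ (Fin.castLE ht j)) = S := by
    rw [hSd, lam_eq _ hM]
  rw [hS] at hev
  have h1 : RCLike.re (inner ℂ ψ (op (D t (∑ i, A i ⊗ₖ B i)) ψ)) = S * ‖ψ‖ ^ 2 := by
    rw [hev, inner_smul_right, inner_self_eq_norm_sq_to_K]
    have h6 : ((S : ℝ) : ℂ) * ((‖ψ‖ : ℝ) : ℂ) ^ 2 = ((S * ‖ψ‖ ^ 2 : ℝ) : ℂ) := by push_cast; ring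
    exact (congrArg RCLike.re h6).trans (Complex.ofReal_re _)
  rw [← h1, D_sum, op_sum, inner_sum, map_sum]
  have h2 : ∀ i, RCLike.re (inner ℂ ψ (op (D t (A i ⊗ₖ B i)) ψ)) ≤
      ∑ k, ∑ l, df (α i) k * df (β i) l *
        ∑ s ∈ range t, ‖ψ - (Lk m n t (k + 1) (l + 1) (s + 1)).starProjection ψ‖ ^ 2 := by
    intro i
    obtain ⟨U, hU, hAU⟩ := spec (A i) (hA i).1
    obtain ⟨V, hV, hBV⟩ := spec (B i) (hB i).1
    have h3 := up U V hU hV (α i) (β i) (hαa i) (hα0 i) (hβa i) (hβ0 i) ψ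
    have h4 : A i ⊗ₖ B i = (U * Matrix.diagonal (fun k => ((α i k : ℝ) : ℂ)) * Uᴴ) ⊗ₖ
        (V * Matrix.diagonal (fun k => ((β i k : ℝ) : ℂ)) * Vᴴ) := by
      conv_lhs => rw [hAU, hBV]
      rfl
    rw [h4]
    exact h3
  refine (Finset.sum_le_sum fun i _ => h2 i).trans (le_of_eq ?_)
  rw [inner_Gop, Finset.sum_comm]
  refine Finset.sum_congr rfl fun k _ => ?_
  rw [Finset.sum_comm]
  refine Finset.sum_congr rfl fun l _ => ?_
  rw [hw, ← Finset.sum_mul]

end T2H95.KF
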