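import Pool.Agent.T2H95.KF.Defs

/-!
# Package HW: derivative of the action, vectors killed by the raising operators (35 min)

`der`: for `ψ ∈ H` and `c ∈ ℂ` the vector `op (T t ((1 + c • A) ⊗ₖ 1)) ψ` is in `H`; its derivative in `c` at `0` is
`op (D t (A ⊗ₖ 1)) ψ` (coordinatewise: product rule for `∏ r`), and `H` is closed (finite dimension).
(Or: it is a polynomial in `c` with values in the space, and the coefficient of `c` is in `H`.)
`raiseA`, `raiseB`: formula for the raising operators. `hw`: let `ht x = ∑ r, ((x r).1 + (x r).2)`; take the least `h`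
such that there is `v ∈ H`, `v ≠ 0`, `v x = 0` for all `x` with `ht x > h`. A raising operator applied to `v` is in `H`
and vanishes at all `x` with `ht x ≥ h`; so it is zero by minimality.
-/

set_option autoImplicit false

noncomputable section

open Matrix Finset
open scoped Kronecker

namespace T2H95.KF

/-- the derivative of the action -/
lemma der_aux {m n t : ℕ} (H : Submodule ℂ (HV m n t)) (X : Mx m n) (ψ : HV m n t)
    (h : ∀ c : ℂ, op (T t (1 + c • X)) ψ ∈ H) : op (D t X) ψ ∈ H := by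
  set e : HV m n t ≃ₗ[ℂ] (Cg m n t → ℂ) := WithLp.linearEquiv 2 ℂ (Cg m n t → ℂ) with he
  set H' : Submodule ℂ (Cg m n t → ℂ) := H.map e.toLinearMap with hH'
  have hmem : ∀ φ : HV m n t, φ ∈ H ↔ e φ ∈ H' := by
    intro φ
    constructor
    · intro hφ
      exact Submodule.mem_map_of_mem hφ
    · intro hφ
      obtain ⟨φ', h1, h2⟩ := Submodule.mem_map.1 hφ
      rw [← e.injective h2]
      exact h1
  have hcl : IsClosed (H' : Set (Cg m n t → ℂ)) := Submodule.closed_of_finiteDimensional H'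
  set g : ℂ → (Cg m n t → ℂ) := fun c => e (op (T t (1 + c • X)) ψ) with hg
  have hgx : ∀ c x, g c x = ∑ y, (∏ r, ((1 : Mx m n) (x r) (y r) + c * X (x r) (y r))) * ψ y := by
    intro c x
    show op (T t (1 + c • X)) ψ x = _
    rw [op_apply]
    rfl
  have hder : HasDerivAt g (e (op (D t X) ψ)) 0 := by
    rw [hasDerivAt_pi]
    intro x
    have e1 : (fun c => g c x) = fun c =>
        ∑ y, (∏ r, ((1 : Mx m n) (x r) (y r) + c * X (x r) (y r))) * ψ y := by
      funext c
      exact hgx c x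
    rw [e1]
    have e2 : e (op (D t X) ψ) x = ∑ y, D t X x y * ψ y := op_apply _ _ _
    rw [e2]
    refine HasDerivAt.fun_sum fun y _ => ?_
    refine HasDerivAt.mul_const ?_ _
    have h1 : ∀ r ∈ (univ : Finset (Fin t)),
        HasDerivAt (fun c : ℂ => (1 : Mx m n) (x r) (y r) + c * X (x r) (y r)) (X (x r) (y r))
          0 := by
      intro r _
      have := ((hasDerivAt_id (0 : ℂ)).mul_const (X (x r) (y r))).const_add
        ((1 : Mx m n) (x r) (y r))
      simpa using this
    have h2 := HasDerivAt.fun_finsetProd h1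
    have h3 : D t X x y = ∑ i, (∏ j ∈ univ.erase i,
        ((1 : Mx m n) (x j) (y j) + 0 * X (x j) (y j))) • X (x i) (y i) := by
      unfold D
      rw [Matrix.of_apply]
      refine Finset.sum_congr rfl fun r _ => ?_
      rw [smul_eq_mul, mul_comm]
      congr 1
      by_cases hup : Function.update x r (y r) = y
      · rw [if_pos hup]
        symm
        refine Finset.prod_eq_one fun s hs => ?_
        have hsr : s ≠ r := (Finset.mem_erase.1 hs).1
        have h4 := congrFun hup s
        rw [Function.update_of_ne hsr] at h4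
        rw [h4, Matrix.one_apply_eq, zero_mul, add_zero]
      · rw [if_neg hup]
        symm
        have : ∃ s, s ≠ r ∧ x s ≠ y s := by
          by_contra hcon
          push Not at hcon
          apply hup
          funext s
          by_cases hs : s = r
          · subst hs
            simp
          · rw [Function.update_of_ne hs]
            exact hcon s hs
        obtain ⟨s, hs, hxy⟩ := this
        refine Finset.prod_eq_zero (Finset.mem_erase.2 ⟨hs, Finset.mem_univ s⟩) ?_
        rw [Matrix.one_apply_ne hxy, zero_mul, add_zero]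
    rw [h3]
    exact h2
  rw [hmem]
  have hsl := hder.tendsto_slope
  refine hcl.mem_of_tendsto hsl (Filter.Eventually.of_forall fun c => ?_)
  rw [slope_def_module]
  exact H'.smul_mem _ (H'.sub_mem ((hmem _).1 (h c)) ((hmem _).1 (h 0)))

theorem der {m n t : ℕ} (H : Submodule ℂ (HV m n t))
    (h : ∀ (A : Matrix (Fin m) (Fin m) ℂ) (B : Matrix (Fin n) (Fin n) ℂ), ∀ ψ ∈ H,
      op (T t (A ⊗ₖ B)) ψ ∈ H) :
    (∀ (A : Matrix (Fin m) (Fin m) ℂ), ∀ ψ ∈ H,
      op (D t (A ⊗ₖ (1 : Matrix (Fin n) (Fin n) ℂ))) ψ ∈ H) ∧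
    (∀ (B : Matrix (Fin n) (Fin n) ℂ), ∀ ψ ∈ H,
      op (D t ((1 : Matrix (Fin m) (Fin m) ℂ) ⊗ₖ B)) ψ ∈ H) := by
  constructor
  · intro A ψ hψ
    refine der_aux H _ ψ fun c => ?_
    have := h (1 + c • A) 1 ψ hψ
    rwa [Matrix.add_kronecker, Matrix.smul_kronecker, Matrix.one_kronecker_one] at this
  · intro B ψ hψ
    refine der_aux H _ ψ fun c => ?_
    have := h 1 (1 + c • B) ψ hψ
    rwa [Matrix.kronecker_add, Matrix.kronecker_smul, Matrix.one_kronecker_one] at this

theorem raiseA {m n t : ℕ} (a b : Fin m) (ψ : HV m n t) (x : Cg m n t) :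
    op (D t ((Matrix.single a b (1 : ℂ)) ⊗ₖ (1 : Matrix (Fin n) (Fin n) ℂ))) ψ x =
      ∑ r, (if (x r).1 = a then ψ (Function.update x r (b, (x r).2)) else 0) := by
  rw [op_D]
  refine Finset.sum_congr rfl fun r _ => ?_
  rw [Finset.sum_eq_single (b, (x r).2)]
  · rw [Matrix.kronecker_apply, Matrix.one_apply_eq, mul_one, Matrix.single_apply]
    by_cases h : (x r).1 = a
    · rw [if_pos h, if_pos ⟨h.symm, rfl⟩, one_mul]
    · rw [if_neg h, if_neg fun h' => h h'.1.symm, zero_mul]
  · intro p _ hp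
    rw [Matrix.kronecker_apply, Matrix.single_apply]
    by_cases h1 : a = (x r).1 ∧ b = p.1
    · have h2 : (x r).2 ≠ p.2 := fun h2 => hp (Prod.ext h1.2.symm h2.symm)
      rw [Matrix.one_apply_ne h2, mul_zero, zero_mul]
    · rw [if_neg h1, zero_mul, zero_mul]
  · intro h
    exact absurd (Finset.mem_univ _) h

theorem raiseB {m n t : ℕ} (a b : Fin n) (ψ : HV m n t) (x : Cg m n t) :
    op (D t ((1 : Matrix (Fin m) (Fin m) ℂ) ⊗ₖ (Matrix.single a b (1 : ℂ)))) ψ x =
      ∑ r, (if (x r).2 = a then ψ (Function.update x r ((x r).1, b)) else 0) := by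
  rw [op_D]
  refine Finset.sum_congr rfl fun r _ => ?_
  rw [Finset.sum_eq_single ((x r).1, b)]
  · rw [Matrix.kronecker_apply, Matrix.one_apply_eq, one_mul, Matrix.single_apply]
    by_cases h : (x r).2 = a
    · rw [if_pos h, if_pos ⟨h.symm, rfl⟩, one_mul]
    · rw [if_neg h, if_neg fun h' => h h'.1.symm, zero_mul]
  · intro p _ hp
    rw [Matrix.kronecker_apply, Matrix.single_apply]
    by_cases h1 : a = (x r).2 ∧ b = p.2
    · have h2 : (x r).1 ≠ p.1 := fun h2 => hp (Prod.ext h2.symm h1.2.symm)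
      rw [Matrix.one_apply_ne h2, zero_mul, zero_mul]
    · rw [if_neg h1, mul_zero, zero_mul]
  · intro h
    exact absurd (Finset.mem_univ _) h

/-- the height of a configuration -/
def hgt {m n t : ℕ} (x : Cg m n t) : ℕ := ∑ r, (((x r).1 : ℕ) + ((x r).2 : ℕ))

lemma hgt_update {m n t : ℕ} (x : Cg m n t) (r : Fin t) (p : Fin m × Fin n)
    (h : ((x r).1 : ℕ) + ((x r).2 : ℕ) < (p.1 : ℕ) + (p.2 : ℕ)) :
    hgt x < hgt (Function.update x r p) := by
  unfold hgt
  refine Finset.sum_lt_sum (fun s _ => ?_) ⟨r, Finset.mem_univ r, ?_⟩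
  · by_cases hs : s = r
    · subst hs
      rw [Function.update_self]
      exact h.le
    · rw [Function.update_of_ne hs]
  · rw [Function.update_self]
    exact h

theorem hw {m n t : ℕ} (H : Submodule ℂ (HV m n t)) (hH : H ≠ ⊥)
    (hA : ∀ (A : Matrix (Fin m) (Fin m) ℂ), ∀ ψ ∈ H,
      op (D t (A ⊗ₖ (1 : Matrix (Fin n) (Fin n) ℂ))) ψ ∈ H)
    (hB : ∀ (B : Matrix (Fin n) (Fin n) ℂ), ∀ ψ ∈ H,
      op (D t ((1 : Matrix (Fin m) (Fin m) ℂ) ⊗ₖ B)) ψ ∈ H) :
    ∃ v ∈ H, v ≠ 0 ∧
      (∀ a b : Fin m, a < b →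
        op (D t ((Matrix.single a b (1 : ℂ)) ⊗ₖ (1 : Matrix (Fin n) (Fin n) ℂ))) v = 0) ∧
      (∀ a b : Fin n, a < b →
        op (D t ((1 : Matrix (Fin m) (Fin m) ℂ) ⊗ₖ (Matrix.single a b (1 : ℂ)))) v = 0) := by
  classical
  obtain ⟨v₀, hv₀, hv₀0⟩ := (Submodule.ne_bot_iff H).1 hH
  have hex : ∃ h : ℕ, ∃ v ∈ H, v ≠ 0 ∧ ∀ x : Cg m n t, h ≤ hgt x → v x = 0 := by
    refine ⟨∑ x : Cg m n t, hgt x + 1, v₀, hv₀, hv₀0, fun x hx => ?_⟩
    have := Finset.single_le_sum (f := fun x : Cg m n t => hgt x) (fun _ _ => Nat.zero_le _)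
      (Finset.mem_univ x)
    omega
  obtain ⟨v, hv, hv0, hvx⟩ := Nat.find_spec hex
  set h := Nat.find hex with hh
  have hpos : 0 < h := by
    rcases Nat.eq_zero_or_pos h with h0 | h0
    · exfalso
      apply hv0
      ext x
      exact hvx x (by omega)
    · exact h0
  have key : ∀ w ∈ H, (∀ x : Cg m n t, h ≤ hgt x + 1 → w x = 0) → w = 0 := by
    intro w hw hwx
    by_contra hne
    have := Nat.find_min hex (m := h - 1) (by omega)
    exact this ⟨w, hw, hne, fun x hx => hwx x (by omega)⟩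
  refine ⟨v, hv, hv0, fun a b hab => key _ (hA _ _ hv) fun x hx => ?_,
    fun a b hab => key _ (hB _ _ hv) fun x hx => ?_⟩
  · rw [raiseA]
    refine Finset.sum_eq_zero fun r _ => ?_
    by_cases h1 : (x r).1 = a
    · rw [if_pos h1]
      apply hvx
      have := hgt_update x r (b, (x r).2) (by
        rw [h1]
        have : (a : ℕ) < b := hab
        simpa using this)
      omega
    · rw [if_neg h1]
  · rw [raiseB]
    refine Finset.sum_eq_zero fun r _ => ?_
    by_cases h1 : (x r).2 = a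
    · rw [if_pos h1]
      apply hvx
      have := hgt_update x r ((x r).1, b) (by
        rw [h1]
        have : (a : ℕ) < b := hab
        simpa using this)
      omega
    · rw [if_neg h1]

end T2H95.KF
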