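import Pool.Agent.T2H95.KF.UP
import Pool.Agent.T2H95.KF.CAS
import Pool.Agent.T2H95.KF.HW
import Pool.Agent.T2H95.KF.EIG

/-!
# Assembly
-/

set_option autoImplicit false

noncomputable section

open Matrix Finset
open scoped Kronecker

namespace T2H95.KF

section

variable {m n t : ℕ}

lemma T_Alt (X : Mx m n) (ψ : HV m n t) (hψ : ψ ∈ Alt m n t) : op (T t X) ψ ∈ Alt m n t := by
  intro σ x
  rw [op_apply, op_apply, Finset.mul_sum,
    ← Equiv.sum_comp (Equiv.arrowCongr σ.symm (Equiv.refl (Fin m × Fin n)))]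
  refine Finset.sum_congr rfl fun y _ => ?_
  have h1 : Equiv.arrowCongr σ.symm (Equiv.refl (Fin m × Fin n)) y = y ∘ σ := by
    funext r; simp
  rw [h1, hψ σ y]
  have h2 : T t X (x ∘ σ) (y ∘ σ) = T t X x y := by
    unfold T
    simp only [Matrix.of_apply, Function.comp]
    exact Equiv.prod_comp σ fun r => X (x r) (y r)
  rw [h2]
  ring

lemma Lk_le_Alt (k l s : ℕ) : Lk m n t k l s ≤ Alt m n t := by
  unfold Lk
  rw [Submodule.span_le]
  rintro ψ ⟨A, B, z, -, -, rfl⟩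
  exact sl_mem_Alt _

/-- the invariant operator -/
def Gop (w : Fin m → Fin n → ℝ) : HV m n t →ₗ[ℂ] HV m n t :=
  ∑ k, ∑ l, ∑ s ∈ range t, ((w k l : ℝ) : ℂ) • (LinearMap.id -
    ((Lk m n t ((k : ℕ) + 1) ((l : ℕ) + 1) (s + 1)).starProjection : HV m n t →ₗ[ℂ] HV m n t))

lemma Gop_apply (w : Fin m → Fin n → ℝ) (ψ : HV m n t) :
    Gop w ψ = ∑ k, ∑ l, ∑ s ∈ range t, ((w k l : ℝ) : ℂ) •
      (ψ - (Lk m n t ((k : ℕ) + 1) ((l : ℕ) + 1) (s + 1)).starProjection ψ) := by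
  unfold Gop
  simp only [LinearMap.sum_apply, LinearMap.smul_apply, LinearMap.sub_apply, LinearMap.id_apply,
    ContinuousLinearMap.coe_coe]

lemma inner_sub_proj (K : Submodule ℂ (HV m n t)) (ψ : HV m n t) :
    inner ℂ ψ (ψ - K.starProjection ψ) = ((‖ψ - K.starProjection ψ‖ ^ 2 : ℝ) : ℂ) := by
  have h1 : inner ℂ (K.starProjection ψ) (ψ - K.starProjection ψ) = 0 := by
    rw [← inner_conj_symm, K.starProjection_inner_eq_zero ψ _ (K.starProjection_apply_mem ψ),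
      map_zero]
  have h2 : inner ℂ ψ (ψ - K.starProjection ψ) =
      inner ℂ (ψ - K.starProjection ψ) (ψ - K.starProjection ψ) +
        inner ℂ (K.starProjection ψ) (ψ - K.starProjection ψ) := by
    rw [← inner_add_left, sub_add_cancel]
  rw [h2, h1, add_zero, inner_self_eq_norm_sq_to_K]
  push_cast
  rfl

lemma inner_Gop (w : Fin m → Fin n → ℝ) (ψ : HV m n t) :
    RCLike.re (inner ℂ ψ (Gop w ψ)) = ∑ k, ∑ l, w k l * ∑ s ∈ range t,
      ‖ψ - (Lk m n t ((k : ℕ) + 1) ((l : ℕ) + 1) (s + 1)).starProjection ψ‖ ^ 2 := by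
  rw [Gop_apply, inner_sum, map_sum]
  refine Finset.sum_congr rfl fun k _ => ?_
  rw [inner_sum, map_sum]
  refine Finset.sum_congr rfl fun l _ => ?_
  rw [inner_sum, map_sum, Finset.mul_sum]
  refine Finset.sum_congr rfl fun s _ => ?_
  rw [inner_smul_right, inner_sub_proj, ← Complex.ofReal_mul]
  exact Complex.ofReal_re _

lemma Gop_symm (w : Fin m → Fin n → ℝ) (φ ψ : HV m n t) :
    inner ℂ (Gop w φ) ψ = inner ℂ φ (Gop w ψ) := by
  rw [Gop_apply, Gop_apply, sum_inner, inner_sum]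
  refine Finset.sum_congr rfl fun k _ => ?_
  rw [sum_inner, inner_sum]
  refine Finset.sum_congr rfl fun l _ => ?_
  rw [sum_inner, inner_sum]
  refine Finset.sum_congr rfl fun s _ => ?_
  rw [inner_smul_left, inner_smul_right, inner_sub_left, inner_sub_right,
    Submodule.inner_starProjection_left_eq_right, Complex.conj_ofReal]

lemma Gop_Alt (w : Fin m → Fin n → ℝ) (ψ : HV m n t) (hψ : ψ ∈ Alt m n t) :
    Gop w ψ ∈ Alt m n t := by
  rw [Gop_apply]
  refine Submodule.sum_mem _ fun k _ => Submodule.sum_mem _ fun l _ =>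
    Submodule.sum_mem _ fun s _ => Submodule.smul_mem _ _ (Submodule.sub_mem _ hψ ?_)
  exact Lk_le_Alt _ _ _ (Submodule.starProjection_apply_mem _ _)

lemma proj_comm (A : Matrix (Fin m) (Fin m) ℂ) (B : Matrix (Fin n) (Fin n) ℂ) (k l s : ℕ)
    (ψ : HV m n t) : (Lk m n t k l s).starProjection (op (T t (A ⊗ₖ B)) ψ) =
      op (T t (A ⊗ₖ B)) ((Lk m n t k l s).starProjection ψ) := by
  apply Submodule.eq_starProjection_of_mem_of_inner_eq_zero
  · exact Lk_inv A B k l s _ (Submodule.starProjection_apply_mem _ _)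
  · intro φ hφ
    rw [← map_sub, op_adj, ← T_conjTranspose, Matrix.conjTranspose_kronecker]
    exact Submodule.starProjection_inner_eq_zero _ _ (Lk_inv _ _ k l s _ hφ)

lemma Gop_comm (w : Fin m → Fin n → ℝ) (A : Matrix (Fin m) (Fin m) ℂ)
    (B : Matrix (Fin n) (Fin n) ℂ) (ψ : HV m n t) :
    Gop w (op (T t (A ⊗ₖ B)) ψ) = op (T t (A ⊗ₖ B)) (Gop w ψ) := by
  rw [Gop_apply, Gop_apply, map_sum]
  refine Finset.sum_congr rfl fun k _ => ?_
  rw [map_sum]
  refine Finset.sum_congr rfl fun l _ => ?_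
  rw [map_sum]
  refine Finset.sum_congr rfl fun s _ => ?_
  rw [map_smul, map_sub, proj_comm]

lemma proj_le (K : Submodule ℂ (HV m n t)) (v u : HV m n t) (hu : u ∈ K) :
    ‖v - K.starProjection v‖ ^ 2 ≤ ‖v - u‖ ^ 2 := by
  refine pow_le_pow_left₀ (norm_nonneg _) ?_ 2
  rw [K.starProjection_minimal v]
  exact ciInf_le ⟨0, by rintro _ ⟨x, rfl⟩; exact norm_nonneg _⟩ (⟨u, hu⟩ : K)

lemma proj_le' (K : Submodule ℂ (HV m n t)) (v : HV m n t) :
    ‖v - K.starProjection v‖ ^ 2 ≤ ‖v‖ ^ 2 := by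
  have := proj_le K v 0 K.zero_mem
  rwa [sub_zero] at this

lemma layer_norm (w : Fin m → Fin n → ℝ) (v : HV m n t) :
    ∑ k, ∑ l, w k l * ∑ s ∈ range t, ∑ x : Cg m n t,
      (if s + 1 ≤ cnt ((k : ℕ) + 1) ((l : ℕ) + 1) x then ‖v x‖ ^ 2 else 0) =
    ∑ x : Cg m n t, ‖v x‖ ^ 2 * ∑ k, ∑ l, w k l * (cnt ((k : ℕ) + 1) ((l : ℕ) + 1) x : ℝ) := by
  simp only [Finset.mul_sum]
  symm
  rw [Finset.sum_comm]
  refine Finset.sum_congr rfl fun k _ => ?_
  rw [Finset.sum_comm]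
  refine Finset.sum_congr rfl fun l _ => ?_
  rw [Finset.sum_comm]
  refine Finset.sum_congr rfl fun x _ => ?_
  rw [cnt_layer, Finset.mul_sum, Finset.mul_sum]
  refine Finset.sum_congr rfl fun s _ => ?_
  split_ifs <;> ring

/-- the invariant operator is bounded by the maximum over configurations -/
theorem top_bound (w : Fin m → Fin n → ℝ) (hw0 : ∀ k l, 0 ≤ w k l) (Λ : ℝ)
    (hΛ : ∀ x : Cg m n t, Function.Injective x →
      ∑ k, ∑ l, w k l * (cnt ((k : ℕ) + 1) ((l : ℕ) + 1) x : ℝ) ≤ Λ)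
    (ψ : HV m n t) (hψ : ψ ∈ Alt m n t) (hψ0 : ψ ≠ 0) :
    RCLike.re (inner ℂ ψ (Gop w ψ)) ≤ Λ * ‖ψ‖ ^ 2 := by
  have hS0 : (Gop (t := t) w).IsSymmetric := Gop_symm w
  have hS := hS0.restrict_invariant (V := Alt m n t) (Gop_Alt w)
  set GA := (Gop w).restrict (Gop_Alt (t := t) w) with hGA
  have : Nontrivial (Alt m n t) := ⟨⟨⟨ψ, hψ⟩, 0, fun h => hψ0 (congrArg Subtype.val h)⟩⟩
  have hev := hS.hasEigenvalue_iSup_of_finiteDimensional
  set μ : ℝ := ⨆ x : { x : Alt m n t // x ≠ 0 },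
    RCLike.re (inner ℂ (GA x) (x : Alt m n t)) / ‖(x : Alt m n t)‖ ^ 2 with hμ
  obtain ⟨v0, hv0⟩ := hev.exists_hasEigenvector
  -- the Rayleigh quotient is bounded
  have hR : ∀ x : HV m n t, RCLike.re (inner ℂ x (Gop w x)) ≤ (∑ k, ∑ l, w k l * t) * ‖x‖ ^ 2 := by
    intro x
    rw [inner_Gop, Finset.sum_mul]
    refine Finset.sum_le_sum fun k _ => ?_
    rw [Finset.sum_mul]
    refine Finset.sum_le_sum fun l _ => ?_
    rw [mul_assoc]
    refine mul_le_mul_of_nonneg_left ?_ (hw0 k l)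
    calc _ ≤ ∑ s ∈ range t, ‖x‖ ^ 2 := Finset.sum_le_sum fun s _ => proj_le' _ _
      _ = t * ‖x‖ ^ 2 := by rw [Finset.sum_const, Finset.card_range, nsmul_eq_mul]
  have hre : ∀ x : Alt m n t, RCLike.re (inner ℂ (GA x) x) =
      RCLike.re (inner ℂ (x : HV m n t) (Gop w (x : HV m n t))) := by
    intro x
    have h1 : inner ℂ (GA x) x = inner ℂ (Gop w (x : HV m n t)) (x : HV m n t) := rfl
    rw [h1, Gop_symm]
  have hbd : BddAbove (Set.range fun x : { x : Alt m n t // x ≠ 0 } =>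
      RCLike.re (inner ℂ (GA x) (x : Alt m n t)) / ‖(x : Alt m n t)‖ ^ 2) := by
    refine ⟨∑ k, ∑ l, w k l * t, ?_⟩
    rintro _ ⟨x, rfl⟩
    have hx : 0 < ‖(x : Alt m n t)‖ ^ 2 := by
      have := norm_pos_iff.2 x.2
      positivity
    show _ / _ ≤ _
    rw [div_le_iff₀ hx, hre]
    exact hR _
  have hle : RCLike.re (inner ℂ ψ (Gop w ψ)) ≤ μ * ‖ψ‖ ^ 2 := by
    have h1 := le_ciSup hbd (⟨⟨ψ, hψ⟩, fun h => hψ0 (congrArg Subtype.val h)⟩ :
      { x : Alt m n t // x ≠ 0 })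
    have hx : 0 < ‖ψ‖ ^ 2 := by
      have := norm_pos_iff.2 hψ0
      positivity
    rw [← div_le_iff₀ hx]
    refine le_trans (le_of_eq ?_) h1
    show _ = RCLike.re (inner ℂ (GA ⟨ψ, hψ⟩) (⟨ψ, hψ⟩ : Alt m n t)) / ‖ψ‖ ^ 2
    rw [hre]
  refine hle.trans (mul_le_mul_of_nonneg_right ?_ (by positivity))
  -- the top eigenspace
  set H : Submodule ℂ (HV m n t) := Module.End.eigenspace (Gop w) ((μ : ℝ) : ℂ) ⊓ Alt m n t with hH
  have hHne : H ≠ ⊥ := by
    intro h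
    have h1 : (v0 : HV m n t) ∈ H := by
      refine ⟨?_, v0.2⟩
      rw [SetLike.mem_coe, Module.End.mem_eigenspace_iff]
      have h2 := hv0.apply_eq_smul
      exact congrArg Subtype.val h2
    rw [h, Submodule.mem_bot] at h1
    exact hv0.2 (Subtype.ext h1)
  have hinv : ∀ (A : Matrix (Fin m) (Fin m) ℂ) (B : Matrix (Fin n) (Fin n) ℂ), ∀ v ∈ H,
      op (T t (A ⊗ₖ B)) v ∈ H := by
    rintro A B v ⟨h1, h2⟩
    refine ⟨?_, T_Alt _ _ h2⟩
    rw [SetLike.mem_coe, Module.End.mem_eigenspace_iff] at h1 ⊢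
    rw [Gop_comm, h1, map_smul]
  obtain ⟨hDA, hDB⟩ := der H hinv
  obtain ⟨v, ⟨hv1, hv2⟩, hvne, hrA, hrB⟩ := hw H hHne hDA hDB
  rw [SetLike.mem_coe, Module.End.mem_eigenspace_iff] at hv1
  have hdown : ∀ x, v x ≠ 0 → IsDown x := by
    intro x hx
    refine cas (fun x => v x) hv2 (fun a b hab x => ?_) (fun a b hab x => ?_) x hx
    · rw [← raiseA, hrA a b hab]
      rfl
    · rw [← raiseB, hrB a b hab]
      rfl
  have hvn : 0 < ‖v‖ ^ 2 := by
    have := norm_pos_iff.2 hvne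
    positivity
  refine le_of_mul_le_mul_right ?_ hvn
  have h1 : RCLike.re (inner ℂ v (Gop w v)) = μ * ‖v‖ ^ 2 := by
    rw [hv1, inner_smul_right, inner_self_eq_norm_sq_to_K]
    have h6 : ((μ : ℝ) : ℂ) * ((‖v‖ : ℝ) : ℂ) ^ 2 = ((μ * ‖v‖ ^ 2 : ℝ) : ℂ) := by push_cast; ring
    exact (congrArg RCLike.re h6).trans (Complex.ofReal_re _)
  rw [← h1, inner_Gop]
  calc _ ≤ ∑ k, ∑ l, w k l * ∑ s ∈ range t, ∑ x : Cg m n t,
      (if s + 1 ≤ cnt ((k : ℕ) + 1) ((l : ℕ) + 1) x then ‖v x‖ ^ 2 else 0) := by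
        refine Finset.sum_le_sum fun k _ => Finset.sum_le_sum fun l _ =>
          mul_le_mul_of_nonneg_left (Finset.sum_le_sum fun s _ => ?_) (hw0 k l)
        refine (proj_le _ v _ (trunc_mem v hv2 hdown _ _ _)).trans (le_of_eq ?_)
        rw [norm_sq_eq]
        refine Finset.sum_congr rfl fun x _ => ?_
        rw [PiLp.sub_apply]
        show ‖v x - (if _ then v x else 0)‖ ^ 2 = _
        by_cases hx : s + 1 ≤ cnt ((k : ℕ) + 1) ((l : ℕ) + 1) x
        · rw [if_pos hx, if_neg (by omega), sub_zero]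
        · rw [if_neg hx, if_pos (by omega), sub_self, norm_zero]
          norm_num
    _ = ∑ x : Cg m n t, ‖v x‖ ^ 2 *
        ∑ k, ∑ l, w k l * (cnt ((k : ℕ) + 1) ((l : ℕ) + 1) x : ℝ) := layer_norm w v
    _ ≤ ∑ x : Cg m n t, ‖v x‖ ^ 2 * Λ := by
        refine Finset.sum_le_sum fun x _ => ?_
        by_cases hx : v x = 0
        · rw [hx, norm_zero]
          norm_num
        · exact mul_le_mul_of_nonneg_left (hΛ x (hdown x hx).1) (by positivity)
    _ = Λ * ‖v‖ ^ 2 := by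
        rw [← Finset.sum_mul, norm_sq_eq, mul_comm]

end

end T2H95.KF
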