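import Pool.Agent.T2H95.KF.V
import Pool.Agent.T2H95.KF.DN

/-!
# The operator bound

`⟨ψ, D (A ⊗ B) ψ⟩ ≤ ∑_{k,l} df α k * df β l * ∑_s ‖ψ - P_{k+1,l+1,s+1} ψ‖²`.
-/

set_option autoImplicit false

noncomputable section

open Matrix Finset
open scoped Kronecker

namespace T2H95.KF

/-! ### layers -/

/-- differences of consecutive values -/
def df {m : ℕ} (α : Fin m → ℝ) (k : Fin m) : ℝ :=
  α k - if h : (k : ℕ) + 1 < m then α ⟨k + 1, h⟩ else 0

lemma df_nonneg {m : ℕ} {α : Fin m → ℝ} (hα : Antitone α) (h0 : ∀ k, 0 ≤ α k) (k : Fin m) :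
    0 ≤ df α k := by
  unfold df
  split_ifs with h
  · have : α ⟨k + 1, h⟩ ≤ α k := hα (by rw [Fin.le_def]; simp)
    linarith
  · linarith [h0 k]

lemma layer1 {m : ℕ} (α : Fin m → ℝ) (a : Fin m) :
    α a = ∑ k : Fin m, (if (a : ℕ) < (k : ℕ) + 1 then df α k else 0) := by
  set g : ℕ → ℝ := fun j => if h : max (a : ℕ) j < m then α ⟨max a j, h⟩ else 0 with hg
  have h1 : ∀ k : Fin m, (if (a : ℕ) < (k : ℕ) + 1 then df α k else 0) = g k - g (k + 1) := by
    intro k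
    split_ifs with h
    · have hm1 : max (a : ℕ) k = k := by omega
      have hm2 : max (a : ℕ) (k + 1) = k + 1 := by omega
      simp only [hg, hm1, hm2, k.2, dif_pos]
      rfl
    · have hm1 : max (a : ℕ) k = a := by omega
      have hm2 : max (a : ℕ) (k + 1) = a := by omega
      simp only [hg, hm1, hm2]
      ring
  rw [Finset.sum_congr rfl fun k _ => h1 k, Fin.sum_univ_eq_sum_range (fun j => g j - g (j + 1)) m,
    Finset.sum_range_sub']
  have h2 : g 0 = α a := by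
    have hm : max (a : ℕ) 0 = a := by omega
    simp only [hg, hm, a.2, dif_pos]
  have h3 : g m = 0 := by
    simp only [hg]
    rw [dif_neg (by omega)]
  rw [h2, h3, sub_zero]

lemma layer2 {m n : ℕ} (α : Fin m → ℝ) (β : Fin n → ℝ) (p : Fin m × Fin n) :
    α p.1 * β p.2 = ∑ k, ∑ l, df α k * df β l *
      (if (p.1 : ℕ) < (k : ℕ) + 1 ∧ (p.2 : ℕ) < (l : ℕ) + 1 then 1 else 0) := by
  rw [layer1 α p.1, layer1 β p.2, Finset.sum_mul_sum]
  refine Finset.sum_congr rfl fun k _ => Finset.sum_congr rfl fun l _ => ?_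
  by_cases h1 : (p.1 : ℕ) < k + 1
  · by_cases h2 : (p.2 : ℕ) < l + 1
    · simp only [h1, h2, if_true, and_self, mul_one]
    · simp only [h1, h2, if_true, if_false, and_false, mul_zero]
  · simp only [h1, if_false, false_and, zero_mul, mul_zero]

lemma layer3 {m n t : ℕ} (α : Fin m → ℝ) (β : Fin n → ℝ) (x : Cg m n t) :
    ∑ r, α (x r).1 * β (x r).2 =
      ∑ k, ∑ l, df α k * df β l * (cnt ((k : ℕ) + 1) ((l : ℕ) + 1) x : ℝ) := by
  simp only [layer2 α β]
  rw [Finset.sum_comm]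
  refine Finset.sum_congr rfl fun k _ => ?_
  rw [Finset.sum_comm]
  refine Finset.sum_congr rfl fun l _ => ?_
  rw [← Finset.mul_sum]
  congr 1
  unfold cnt
  rw [Finset.sum_boole]

lemma cnt_le {m n t : ℕ} (k l : ℕ) (x : Cg m n t) : cnt k l x ≤ t := by
  unfold cnt
  exact (Finset.card_le_univ _).trans (by simp)

lemma cnt_layer {m n t : ℕ} (k l : ℕ) (x : Cg m n t) :
    (cnt k l x : ℝ) = ∑ s ∈ range t, (if s + 1 ≤ cnt k l x then 1 else 0) := by
  rw [Finset.sum_boole]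
  congr 1
  have : (range t).filter (fun s => s + 1 ≤ cnt k l x) = range (cnt k l x) := by
    ext s
    simp only [Finset.mem_filter, Finset.mem_range]
    have := cnt_le k l x
    omega
  rw [this, Finset.card_range]

lemma layer {m n t : ℕ} (α : Fin m → ℝ) (β : Fin n → ℝ) (x : Cg m n t) :
    ∑ r, α (x r).1 * β (x r).2 = ∑ k, ∑ l, df α k * df β l *
      ∑ s ∈ range t, (if s + 1 ≤ cnt ((k : ℕ) + 1) ((l : ℕ) + 1) x then 1 else 0) := by
  rw [layer3]
  simp only [cnt_layer]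

/-! ### product operators -/

section

variable {m n t : ℕ}

/-- product of one-particle operators -/
def Tf (F : Fin t → Mx m n) : Matrix (Cg m n t) (Cg m n t) ℂ :=
  Matrix.of fun x y => ∏ r, F r (x r) (y r)

lemma Tf_mul (F G : Fin t → Mx m n) : Tf F * Tf G = Tf fun r => F r * G r := by
  ext x y
  unfold Tf
  simp only [Matrix.of_apply, Matrix.mul_apply]
  rw [Finset.prod_univ_sum]
  simp only [Fintype.piFinset_univ]
  refine Finset.sum_congr rfl fun z _ => ?_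
  rw [Finset.prod_mul_distrib]

lemma T_eq (X : Mx m n) : T t X = Tf fun _ => X := rfl

lemma D_eq (X : Mx m n) : D t X = ∑ r, Tf (Function.update (fun _ => (1 : Mx m n)) r X) := by
  ext x y
  rw [Matrix.sum_apply]
  unfold D Tf
  simp only [Matrix.of_apply]
  refine Finset.sum_congr rfl fun r _ => ?_
  rw [← Finset.mul_prod_erase _ _ (Finset.mem_univ r)]
  rw [Function.update_self]
  congr 1
  by_cases h : Function.update x r (y r) = y
  · rw [if_pos h]
    symm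
    refine Finset.prod_eq_one fun s hs => ?_
    have hsr := (Finset.mem_erase.1 hs).1
    rw [Function.update_of_ne hsr, ← h, Function.update_of_ne hsr, Matrix.one_apply_eq]
  · rw [if_neg h]
    symm
    obtain ⟨s, hs⟩ := Function.ne_iff.1 h
    have hsr : s ≠ r := by
      rintro rfl
      simp at hs
    refine Finset.prod_eq_zero (Finset.mem_erase.2 ⟨hsr, Finset.mem_univ s⟩) ?_
    rw [Function.update_of_ne hsr] at hs ⊢
    exact Matrix.one_apply_ne hs

lemma D_conj (W Y E : Mx m n) (h : W * Y = 1) : D t (W * E * Y) = T t W * D t E * T t Y := by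
  rw [D_eq, D_eq, Finset.mul_sum, Finset.sum_mul]
  refine Finset.sum_congr rfl fun r _ => ?_
  rw [T_eq, T_eq, Tf_mul, Tf_mul]
  congr 1
  funext s
  by_cases hs : s = r
  · subst hs
    simp
  · rw [Function.update_of_ne hs, Function.update_of_ne hs, Matrix.mul_one, h]

lemma op_D_diag (d : Fin m × Fin n → ℂ) (ψ : HV m n t) (x : Cg m n t) :
    op (D t (Matrix.diagonal d)) ψ x = (∑ r, d (x r)) * ψ x := by
  rw [op_D, Finset.sum_mul]
  refine Finset.sum_congr rfl fun r _ => ?_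
  rw [Finset.sum_eq_single (x r)]
  · rw [Matrix.diagonal_apply_eq, Function.update_eq_self]
  · intro p _ hp
    rw [Matrix.diagonal_apply_ne _ (Ne.symm hp), zero_mul]
  · intro h
    exact absurd (Finset.mem_univ _) h

lemma Lk_vanish (k l s : ℕ) (ψ : HV m n t) (hψ : ψ ∈ Lk m n t k l s) (x : Cg m n t)
    (hx : s ≤ cnt k l x) : ψ x = 0 := by
  unfold Lk at hψ
  induction hψ using Submodule.span_induction with
  | mem φ h =>
    obtain ⟨A, B, z, hz, hc, rfl⟩ := h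
    exact sl_vanish A B k l z x hz (lt_of_lt_of_le hc hx)
  | zero => simp
  | add a b _ _ ha hb => simp [ha, hb]
  | smul c a _ ha => simp [ha]

lemma norm_sq_eq (ψ : HV m n t) : ‖ψ‖ ^ 2 = ∑ x, ‖ψ x‖ ^ 2 := by
  rw [EuclideanSpace.norm_eq, Real.sq_sqrt]
  exact Finset.sum_nonneg fun x _ => by positivity

lemma norm_op_T (W : Mx m n) (h : W * Wᴴ = 1) (ψ : HV m n t) : ‖op (T t Wᴴ) ψ‖ = ‖ψ‖ := by
  have h1 : inner ℂ (op (T t Wᴴ) ψ) (op (T t Wᴴ) ψ) = inner ℂ ψ ψ := by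
    rw [op_adj, ← T_conjTranspose, Matrix.conjTranspose_conjTranspose, ← op_mul, ← T_mul, h, T_one,
      op_one]
  have h2 := congrArg RCLike.re h1
  rw [inner_self_eq_norm_sq, inner_self_eq_norm_sq] at h2
  exact (pow_left_inj₀ (norm_nonneg _) (norm_nonneg _) (by norm_num)).1 h2

/-- the part of `T ψ` with at least `s` particles in the rectangle -/
lemma part_le (U : Matrix (Fin m) (Fin m) ℂ) (V : Matrix (Fin n) (Fin n) ℂ) (hU : U * Uᴴ = 1)
    (hV : V * Vᴴ = 1) (k l s : ℕ) (ψ : HV m n t) :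
    ∑ x, (if s ≤ cnt k l x then ‖op (T t (U ⊗ₖ V)ᴴ) ψ x‖ ^ 2 else 0) ≤
      ‖ψ - (Lk m n t k l s).starProjection ψ‖ ^ 2 := by
  set P := (Lk m n t k l s).starProjection ψ with hP
  have hPm : P ∈ Lk m n t k l s := Submodule.starProjection_apply_mem _ _
  have hW : (U ⊗ₖ V) * (U ⊗ₖ V)ᴴ = 1 := by
    rw [Matrix.conjTranspose_kronecker, ← Matrix.mul_kronecker_mul, hU, hV, Matrix.one_kronecker_one]
  have hTP : op (T t (U ⊗ₖ V)ᴴ) P ∈ Lk m n t k l s := by
    rw [Matrix.conjTranspose_kronecker]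
    exact Lk_inv _ _ _ _ _ _ hPm
  rw [← norm_op_T (U ⊗ₖ V) hW (ψ - P), norm_sq_eq]
  refine Finset.sum_le_sum fun x _ => ?_
  split_ifs with hx
  · rw [map_sub, PiLp.sub_apply, Lk_vanish k l s _ hTP x hx, sub_zero]
  · positivity

end

/-- **the operator bound** -/
theorem up {m n t : ℕ} (U : Matrix (Fin m) (Fin m) ℂ) (V : Matrix (Fin n) (Fin n) ℂ)
    (hU : U * Uᴴ = 1) (hV : V * Vᴴ = 1) (α : Fin m → ℝ) (β : Fin n → ℝ) (hα : Antitone α)
    (hα0 : ∀ k, 0 ≤ α k) (hβ : Antitone β) (hβ0 : ∀ k, 0 ≤ β k) (ψ : HV m n t) :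
    RCLike.re (inner ℂ ψ (op (D t ((U * Matrix.diagonal (fun i => (α i : ℂ)) * Uᴴ) ⊗ₖ
      (V * Matrix.diagonal (fun i => (β i : ℂ)) * Vᴴ))) ψ)) ≤
      ∑ k, ∑ l, df α k * df β l *
        ∑ s ∈ range t, ‖ψ - (Lk m n t (k + 1) (l + 1) (s + 1)).starProjection ψ‖ ^ 2 := by
  have hW : (U ⊗ₖ V) * (U ⊗ₖ V)ᴴ = 1 := by
    rw [Matrix.conjTranspose_kronecker, ← Matrix.mul_kronecker_mul, hU, hV, Matrix.one_kronecker_one]
  set φ := op (T t (U ⊗ₖ V)ᴴ) ψ with hφ
  set d : Fin m × Fin n → ℝ := fun p => α p.1 * β p.2 with hd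
  have h1 : (U * Matrix.diagonal (fun i => (α i : ℂ)) * Uᴴ) ⊗ₖ
      (V * Matrix.diagonal (fun i => (β i : ℂ)) * Vᴴ) =
      (U ⊗ₖ V) * Matrix.diagonal (fun p => (d p : ℂ)) * (U ⊗ₖ V)ᴴ := by
    rw [Matrix.conjTranspose_kronecker, Matrix.mul_kronecker_mul, Matrix.mul_kronecker_mul,
      Matrix.diagonal_kronecker_diagonal]
    simp only [hd, Complex.ofReal_mul]
  have h2 : inner ℂ ψ (op (D t ((U ⊗ₖ V) * Matrix.diagonal (fun p => (d p : ℂ)) * (U ⊗ₖ V)ᴴ)) ψ) =
      inner ℂ φ (op (D t (Matrix.diagonal (fun p => (d p : ℂ)))) φ) := by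
    rw [D_conj _ _ _ hW, op_mul, op_mul, hφ, op_adj, ← T_conjTranspose,
      Matrix.conjTranspose_conjTranspose]
  have h3 : RCLike.re (inner ℂ φ (op (D t (Matrix.diagonal (fun p => (d p : ℂ)))) φ)) =
      ∑ x, ‖φ x‖ ^ 2 * ∑ r, α (x r).1 * β (x r).2 := by
    rw [PiLp.inner_apply, map_sum]
    refine Finset.sum_congr rfl fun x _ => ?_
    rw [op_D_diag]
    have h4 : ∑ r, ((d (x r) : ℝ) : ℂ) = ((∑ r, α (x r).1 * β (x r).2 : ℝ) : ℂ) := by
      push_cast
      simp [hd]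
    rw [h4, RCLike.inner_apply, mul_assoc, RCLike.mul_conj]
    have h6 : ((∑ r, α (x r).1 * β (x r).2 : ℝ) : ℂ) * ((‖φ x‖ : ℝ) : ℂ) ^ 2 =
        ((‖φ x‖ ^ 2 * ∑ r, α (x r).1 * β (x r).2 : ℝ) : ℂ) := by
      push_cast
      ring
    refine (congrArg RCLike.re h6).trans ?_
    exact Complex.ofReal_re _
  rw [h1, h2, h3]
  have h5 : ∀ x : Cg m n t, ‖φ x‖ ^ 2 * ∑ r, α (x r).1 * β (x r).2 =
      ∑ k, ∑ l, df α k * df β l * ∑ s ∈ range t,
        (if s + 1 ≤ cnt ((k : ℕ) + 1) ((l : ℕ) + 1) x then ‖φ x‖ ^ 2 else 0) := by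
    intro x
    rw [layer, Finset.mul_sum]
    refine Finset.sum_congr rfl fun k _ => ?_
    rw [Finset.mul_sum]
    refine Finset.sum_congr rfl fun l _ => ?_
    rw [mul_left_comm, Finset.mul_sum]
    congr 1
    refine Finset.sum_congr rfl fun s _ => ?_
    rw [mul_ite, mul_one, mul_zero]
  rw [Finset.sum_congr rfl fun x _ => h5 x, Finset.sum_comm]
  refine Finset.sum_le_sum fun k _ => ?_
  rw [Finset.sum_comm]
  refine Finset.sum_le_sum fun l _ => ?_
  rw [← Finset.mul_sum]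
  refine mul_le_mul_of_nonneg_left ?_ (mul_nonneg (df_nonneg hα hα0 k) (df_nonneg hβ hβ0 l))
  rw [Finset.sum_comm]
  exact Finset.sum_le_sum fun s _ => part_le U V hU hV _ _ _ ψ

end T2H95.KF
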