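import Pool.Agent.T2H95.KF.Defs

/-!
# Package V: vanishing (linear algebra + combinatorics, 40 min)

`sl (us A B z) x = det [A (x r).1 (z j).1 * B (x r).2 (z j).2]_{r,j}`. Let `J = {r | (x r).1 < k, (x r).2 < l}`,
`#J = cnt k l x > cnt k l z`. It is enough to see that the `J × t` submatrix has rank `< #J` (then its rows are
linearly dependent). Its columns are `c (z j)`, `c (a', b') = (A (x r).1 a' * B (x r).2 b')_{r ∈ J}`, bilinear in
`ā a' = (A a a')_{a < k} ∈ ℂ^k` and `b̄ b' = (B b b')_{b < l} ∈ ℂ^l` (for `r ∈ J` only these entries are used).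
Pivots: `pA = {a' | ā a' ∉ span {ā a'' | a'' < a'}}`; then `#pA ≤ k`, and `ā a' ∈ span {ā a'' | a'' ∈ pA, a'' ≤ a'}`
for all `a'` (strong induction). The same for `pB`. Since the range of `z` is a Young diagram, all columns
`c (z j)` are in the span of the `c p`, `p ∈ range z ∩ (pA × pB)`. Finally `#(range z ∩ (pA × pB)) ≤ cnt k l z`:
the map `(a', b') ↦ (#{a'' ∈ pA | a'' < a'}, #{b'' ∈ pB | b'' < b'})` is injective on `pA × pB`, its values are
coordinatewise `≤ (a', b')` (so in the Young diagram) and in `[0,k) × [0,l)`.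
-/

set_option autoImplicit false

noncomputable section

open Matrix Finset

namespace T2H95.KF

namespace PkgV

/-- pivots of a finite family of vectors -/
lemma piv {m : ℕ} {E : Type*} [AddCommGroup E] [Module ℂ E] [FiniteDimensional ℂ E]
    (v : Fin m → E) (k : ℕ) (hk : Module.finrank ℂ E ≤ k) :
    ∃ (p : Finset (Fin m)) (ρ : Fin m → Fin m),
      (∀ a, v a ∈ Submodule.span ℂ (v '' {a' | a' ∈ p ∧ a' ≤ a})) ∧
      (∀ a ∈ p, ρ a ≤ a ∧ (ρ a : ℕ) < k) ∧ Set.InjOn ρ p := by
  classical
  obtain ⟨p, hp⟩ : ∃ p : Finset (Fin m), ∀ a, a ∈ p ↔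
      v a ∉ Submodule.span ℂ (v '' {a' | a' < a}) :=
    ⟨univ.filter fun a => v a ∉ Submodule.span ℂ (v '' {a' | a' < a}), fun a => by simp⟩
  have hcard : ∀ a : Fin m, (p.filter fun a' => a' < a).card ≤ (a : ℕ) := by
    intro a
    calc (p.filter fun a' => a' < a).card ≤ (Finset.Iio a).card := by
          refine Finset.card_le_card fun b hb => ?_
          rw [Finset.mem_Iio]
          exact (Finset.mem_filter.1 hb).2
      _ = a := by simp
  -- number of pivots below `i`
  have hrank : ∀ i : ℕ, (p.filter fun a' : Fin m => (a' : ℕ) < i).card ≤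
      Module.finrank ℂ (Submodule.span ℂ (v '' {a' : Fin m | (a' : ℕ) < i})) := by
    intro i
    induction i with
    | zero => simp
    | succ i ih =>
      have hmono : Submodule.span ℂ (v '' {a' : Fin m | (a' : ℕ) < i}) ≤
          Submodule.span ℂ (v '' {a' : Fin m | (a' : ℕ) < i + 1}) :=
        Submodule.span_mono (Set.image_mono fun a ha => Nat.lt_succ_of_lt ha)
      by_cases hi : ∃ a ∈ p, (a : ℕ) = i
      · obtain ⟨a, ha, hai⟩ := hi
        have h1 : (p.filter fun a' : Fin m => (a' : ℕ) < i + 1) ⊆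
            insert a (p.filter fun a' : Fin m => (a' : ℕ) < i) := by
          intro b hb
          rw [Finset.mem_filter] at hb
          rw [Finset.mem_insert, Finset.mem_filter]
          by_cases h : (b : ℕ) = i
          · left
            exact Fin.ext (h.trans hai.symm)
          · right
            exact ⟨hb.1, by omega⟩
        have h2 : Submodule.span ℂ (v '' {a' : Fin m | (a' : ℕ) < i}) <
            Submodule.span ℂ (v '' {a' : Fin m | (a' : ℕ) < i + 1}) := by
          refine lt_of_le_of_ne hmono fun h => ?_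
          have h3 : v a ∈ Submodule.span ℂ (v '' {a' : Fin m | (a' : ℕ) < i + 1}) :=
            Submodule.subset_span ⟨a, by simp [hai], rfl⟩
          rw [← h] at h3
          have h4 := (hp a).1 ha
          apply h4
          have h5 : {a' : Fin m | a' < a} = {a' : Fin m | (a' : ℕ) < i} := by
            ext b
            rw [Set.mem_ofPred_eq, Set.mem_ofPred_eq, Fin.lt_def, hai]
          rw [h5]
          exact h3
        have h3 := Submodule.finrank_lt_finrank_of_lt h2
        have h4 := (Finset.card_le_card h1).trans (Finset.card_insert_le _ _)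
        omega
      · have h1 : (p.filter fun a' : Fin m => (a' : ℕ) < i + 1) = p.filter fun a' : Fin m => (a' : ℕ) < i := by
          ext b
          rw [Finset.mem_filter, Finset.mem_filter]
          constructor
          · rintro ⟨hb, h⟩
            refine ⟨hb, ?_⟩
            by_contra h'
            exact hi ⟨b, hb, by omega⟩
          · rintro ⟨hb, h⟩
            exact ⟨hb, by omega⟩
        rw [h1]
        exact ih.trans (Submodule.finrank_mono hmono)
  refine ⟨p, fun a => ⟨(p.filter fun a' => a' < a).card, (hcard a).trans_lt a.2⟩, ?_, ?_, ?_⟩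
  · -- spans
    intro a
    induction a using WellFoundedLT.induction with
    | _ a ih =>
      by_cases ha : a ∈ p
      · exact Submodule.subset_span ⟨a, ⟨ha, le_refl _⟩, rfl⟩
      · have h1 : v a ∈ Submodule.span ℂ (v '' {a' | a' < a}) := by
          by_contra h
          exact ha ((hp a).2 h)
        refine Submodule.span_le.2 ?_ h1
        rintro _ ⟨b, hb, rfl⟩
        have hb' : b < a := hb
        refine Submodule.span_mono (Set.image_mono ?_) (ih b hb')
        rintro c ⟨hc, hcb⟩
        exact ⟨hc, hcb.trans hb'.le⟩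
  · intro a ha
    refine ⟨hcard a, ?_⟩
    have h1 := hrank ((a : ℕ) + 1)
    have h2 := (Submodule.finrank_le
      (Submodule.span ℂ (v '' {a' : Fin m | (a' : ℕ) < (a : ℕ) + 1}))).trans hk
    have h3 : insert a (p.filter fun a' => a' < a) ⊆
        p.filter fun a' : Fin m => (a' : ℕ) < (a : ℕ) + 1 := by
      intro b hb
      rw [Finset.mem_insert] at hb
      rw [Finset.mem_filter]
      rcases hb with rfl | hb
      · exact ⟨ha, Nat.lt_succ_self _⟩
      · rw [Finset.mem_filter] at hb
        have := hb.2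
        rw [Fin.lt_def] at this
        exact ⟨hb.1, by omega⟩
    have h4 := Finset.card_le_card h3
    rw [Finset.card_insert_of_notMem (by simp)] at h4
    change (p.filter fun a' => a' < a).card < k
    omega
  · -- injectivity
    have key : ∀ a ∈ p, ∀ b ∈ p, a < b →
        (p.filter fun a' => a' < a).card < (p.filter fun a' => a' < b).card := by
      intro a ha b hb hab
      refine Finset.card_lt_card ?_
      rw [Finset.ssubset_iff_of_subset]
      · exact ⟨a, Finset.mem_filter.2 ⟨ha, hab⟩, by simp⟩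
      · intro c hc
        rw [Finset.mem_filter] at hc ⊢
        exact ⟨hc.1, hc.2.trans hab⟩
    intro a ha b hb h
    have h' : (p.filter fun a' => a' < a).card = (p.filter fun a' => a' < b).card :=
      congrArg Fin.val h
    rcases lt_trichotomy a b with h1 | h1 | h1
    · exact absurd h' (key a ha b hb h1).ne
    · exact h1
    · exact absurd h' (key b hb a ha h1).ne'

end PkgV

open PkgV in
theorem sl_vanish {m n t : ℕ} (A : Matrix (Fin m) (Fin m) ℂ) (B : Matrix (Fin n) (Fin n) ℂ)
    (k l : ℕ) (z x : Cg m n t) (hz : IsDown z) (h : cnt k l z < cnt k l x) :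
    sl (us A B z) x = 0 := by
  classical
  -- the truncated columns
  set va : Fin m → ({a : Fin m // (a : ℕ) < k} → ℂ) := fun a' a => A a a' with hva
  set vb : Fin n → ({b : Fin n // (b : ℕ) < l} → ℂ) := fun b' b => B b b' with hvb
  have hfin : ∀ (M k : ℕ), Module.finrank ℂ ({a : Fin M // (a : ℕ) < k} → ℂ) ≤ k := by
    intro M k
    rw [Module.finrank_fintype_fun_eq_card]
    have : Function.Injective (fun a : {a : Fin M // (a : ℕ) < k} => (⟨(a : Fin M), a.2⟩ : Fin k)) := by
      intro a b hab
      have h2 : ((a : Fin M) : ℕ) = ((b : Fin M) : ℕ) := congrArg (fun u : Fin k => (u : ℕ)) hab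
      exact Subtype.ext (Fin.ext h2)
    simpa using Fintype.card_le_of_injective _ this
  obtain ⟨p, ρ, hp1, hp2, hp3⟩ := piv va k (hfin m k)
  obtain ⟨q, σ, hq1, hq2, hq3⟩ := piv vb l (hfin n l)
  -- the rows in the rectangle
  set J : Type := {r : Fin t // ((x r).1 : ℕ) < k ∧ ((x r).2 : ℕ) < l} with hJ
  set c : Fin m × Fin n → (J → ℂ) := fun p r => A (x r.1).1 p.1 * B (x r.1).2 p.2 with hc
  set Lb : ({a : Fin m // (a : ℕ) < k} → ℂ) →ₗ[ℂ] ({b : Fin n // (b : ℕ) < l} → ℂ) →ₗ[ℂ] (J → ℂ) :=
    LinearMap.mk₂ ℂ (fun u w r => u ⟨(x r.1).1, r.2.1⟩ * w ⟨(x r.1).2, r.2.2⟩)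
      (fun u u' w => by funext r; simp [add_mul])
      (fun s u w => by funext r; simp [mul_assoc])
      (fun u w w' => by funext r; simp [mul_add])
      (fun s u w => by funext r; simp; ring) with hLb
  have hcL : ∀ a b, Lb (va a) (vb b) = c (a, b) := fun a b => rfl
  set S : Finset (Fin m × Fin n) := univ.filter fun u => (∃ j, z j = u) ∧ u.1 ∈ p ∧ u.2 ∈ q with hS
  set W : Submodule ℂ (J → ℂ) := Submodule.span ℂ ((S.image c : Finset (J → ℂ)) : Set (J → ℂ)) with hW
  have hcol : ∀ j, c (z j) ∈ W := by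
    intro j
    have h1 : Lb (va (z j).1) (vb (z j).2) ∈ Submodule.map₂ Lb
        (Submodule.span ℂ (va '' {a' | a' ∈ p ∧ a' ≤ (z j).1}))
        (Submodule.span ℂ (vb '' {b' | b' ∈ q ∧ b' ≤ (z j).2})) :=
      Submodule.apply_mem_map₂ _ (hp1 _) (hq1 _)
    rw [Submodule.map₂_span_span] at h1
    rw [hcL] at h1
    refine Submodule.span_mono ?_ h1
    rintro _ ⟨_, ⟨a, ⟨ha1, ha2⟩, rfl⟩, _, ⟨b, ⟨hb1, hb2⟩, rfl⟩, rfl⟩
    rw [Finset.coe_image]
    refine ⟨(a, b), ?_, (hcL a b).symm⟩
    rw [Finset.mem_coe, hS, Finset.mem_filter]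
    exact ⟨Finset.mem_univ _, hz.2 j (a, b) ha2 hb2, ha1, hb1⟩
  -- the number of pivots in the diagram
  have hScard : S.card ≤ cnt k l z := by
    have hex : ∀ u ∈ S, ∃ j', z j' = (ρ u.1, σ u.2) := by
      intro u hu
      rw [hS, Finset.mem_filter] at hu
      obtain ⟨_, ⟨j, hj⟩, hu1, hu2⟩ := hu
      refine hz.2 j _ ?_ ?_
      · rw [hj]
        exact (hp2 _ hu1).1
      · rw [hj]
        exact (hq2 _ hu2).1
    have hex' : ∃ f : Fin m × Fin n → Fin t, ∀ u ∈ S, z (f u) = (ρ u.1, σ u.2) := by
      rcases isEmpty_or_nonempty (Fin t) with he | hne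
      · have hS0 : S = ∅ := by
          refine Finset.eq_empty_of_forall_notMem fun u hu => ?_
          obtain ⟨j, _⟩ := hex u hu
          exact he.elim j
        have hx0 : cnt k l x = 0 := by
          unfold cnt
          rw [Finset.card_eq_zero]
          exact Finset.eq_empty_of_forall_notMem fun r _ => he.elim r
        omega
      · choose! f hf using hex
        exact ⟨f, hf⟩
    obtain ⟨f, hf⟩ := hex'
    refine Finset.card_le_card_of_injOn f ?_ ?_
    · intro u hu
      have hu' := hf u hu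
      rw [Finset.mem_coe, hS, Finset.mem_filter] at hu
      rw [Finset.mem_coe, Finset.mem_filter]
      refine ⟨Finset.mem_univ _, ?_, ?_⟩
      · rw [hu']
        exact (hp2 _ hu.2.2.1).2
      · rw [hu']
        exact (hq2 _ hu.2.2.2).2
    · intro u hu u' hu' huu
      have h1 := hf u hu
      have h2 := hf u' hu'
      rw [huu, h2] at h1
      rw [Finset.mem_coe, hS, Finset.mem_filter] at hu hu'
      have h3 := congrArg Prod.fst h1
      have h4 := congrArg Prod.snd h1
      simp only at h3 h4
      exact Prod.ext (hp3 hu.2.2.1 hu'.2.2.1 h3.symm) (hq3 hu.2.2.2 hu'.2.2.2 h4.symm)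
  have hJcard : Fintype.card J = cnt k l x := by
    have := Fintype.card_subtype fun r : Fin t => ((x r).1 : ℕ) < k ∧ ((x r).2 : ℕ) < l
    exact this
  have hWlt : W < ⊤ := by
    refine lt_top_iff_ne_top.2 fun htop => ?_
    have h1 : Module.finrank ℂ W ≤ S.card :=
      (finrank_span_finset_le_card _).trans Finset.card_image_le
    rw [htop, finrank_top, Module.finrank_fintype_fun_eq_card, hJcard] at h1
    omega
  obtain ⟨f, hf0, hfW⟩ := Submodule.exists_le_ker_of_lt_top W hWlt
  rw [sl_apply, ← Matrix.exists_vecMul_eq_zero_iff]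
  refine ⟨fun r => if hr : ((x r).1 : ℕ) < k ∧ ((x r).2 : ℕ) < l then
    f (Pi.single (⟨r, hr⟩ : J) 1) else 0, ?_, ?_⟩
  · intro h0
    apply hf0
    refine LinearMap.pi_ext' fun r => LinearMap.ext_ring ?_
    have := congrFun h0 r.1
    rw [dif_pos r.2] at this
    simpa using this
  · funext j
    change ∑ r : Fin t, (if hr : ((x r).1 : ℕ) < k ∧ ((x r).2 : ℕ) < l then
        f (Pi.single (⟨r, hr⟩ : J) 1) else 0) * (A (x r).1 (z j).1 * B (x r).2 (z j).2) = 0
    have h1 : f (c (z j)) = 0 := hfW (hcol j)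
    have h2 : c (z j) = ∑ r : J, c (z j) r • (Pi.single r (1 : ℂ) : J → ℂ) := by
      funext r
      rw [Finset.sum_apply, Finset.sum_eq_single r]
      · simp
      · intro r' _ hr'
        rw [Pi.smul_apply, Pi.single_eq_of_ne hr'.symm, smul_zero]
      · intro h
        exact absurd (Finset.mem_univ r) h
    rw [h2, map_sum] at h1
    refine Eq.trans ?_ h1
    have h3 : ∀ r : J, f (c (z j) r • (Pi.single r (1 : ℂ) : J → ℂ)) =
        f (Pi.single r 1) * c (z j) r := by
      intro r
      rw [map_smul, smul_eq_mul, mul_comm]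
    simp only [h3]
    have h4 : ∀ r : Fin t, (if hr : ((x r).1 : ℕ) < k ∧ ((x r).2 : ℕ) < l then
        f (Pi.single (⟨r, hr⟩ : J) 1) else 0) * (A (x r).1 (z j).1 * B (x r).2 (z j).2) =
        if hr : ((x r).1 : ℕ) < k ∧ ((x r).2 : ℕ) < l then
          f (Pi.single (⟨r, hr⟩ : J) 1) * c (z j) (⟨r, hr⟩ : J) else 0 := by
      intro r
      split_ifs with hr
      · rfl
      · rw [zero_mul]
    refine (Finset.sum_congr rfl fun r _ => h4 r).trans ?_
    rw [Finset.sum_dite, Finset.sum_const_zero, add_zero]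
    refine Finset.sum_bij (fun r _ => (⟨r.1, (Finset.mem_filter.1 r.2).2⟩ : J))
      (fun r _ => Finset.mem_univ _) (fun r _ r' _ h => ?_) (fun r _ => ?_) (fun r _ => rfl)
    · exact Subtype.ext (congrArg (fun u : J => (u : Fin t)) h)
    · exact ⟨⟨r.1, Finset.mem_filter.2 ⟨Finset.mem_univ _, r.2⟩⟩, Finset.mem_attach _ _, rfl⟩

end T2H95.KF
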